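import Pool.Agent.H84.SM.Targets

/-!
# INV: factors of invariant elements are invariant
-/

set_option autoImplicit false

namespace Pool.Agent.H11.SM

open MvPolynomial SC Pool.Agent.H27.LV Pool.Agent.H84.SM

/-- the degree in `T` of `exp (T δ)` is additive -/
lemma gen {R : Type} [CommRing R] [IsDomain R] [CharZero R] (δ : R → R)
    (φ : R →+* Polynomial R) (h1 : ∀ p, Polynomial.derivative (φ p) = φ (δ p))
    (h2 : Function.Injective φ) {a b : R} (hab : a * b ≠ 0) (h : δ (a * b) = 0) : δ a = 0 := by
  have h3 : Polynomial.derivative (φ (a * b)) = 0 := by rw [h1, h, map_zero]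
  have h4 : (φ (a * b)).natDegree = 0 := Polynomial.derivative_eq_zero.1 h3
  have ha : φ a ≠ 0 := fun h5 => hab (by
    have h6 : a = 0 := h2 (by rw [h5, map_zero])
    rw [h6, zero_mul])
  have hb : φ b ≠ 0 := fun h5 => hab (by
    have h6 : b = 0 := h2 (by rw [h5, map_zero])
    rw [h6, mul_zero])
  rw [map_mul, Polynomial.natDegree_mul ha hb] at h4
  have h5 : (φ a).natDegree = 0 := by omega
  apply h2
  rw [← h1, map_zero, Polynomial.eq_C_of_natDegree_eq_zero h5, Polynomial.derivative_C]

section

variable {k : Type} [Field k]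

/-- the homomorphism `y ↦ y + T x` -/
noncomputable def ph : A2 k →ₐ[k] Polynomial (A2 k) :=
  aeval (Sum.elim (fun i => Polynomial.C (X (Sum.inl i)))
    (fun i => Polynomial.C (X (Sum.inr i)) + Polynomial.X * Polynomial.C (X (Sum.inl i))))

lemma ph_l (i : Fin 3) : ph (X (Sum.inl i) : A2 k) = Polynomial.C (X (Sum.inl i)) := by
  unfold ph
  rw [aeval_X]
  rfl

lemma ph_r (i : Fin 3) : ph (X (Sum.inr i) : A2 k) =
    Polynomial.C (X (Sum.inr i)) + Polynomial.X * Polynomial.C (X (Sum.inl i)) := by
  unfold ph
  rw [aeval_X]
  rfl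

lemma ph_derivative (p : A2 k) : Polynomial.derivative (ph p) = ph (dv p) := by
  induction p using MvPolynomial.induction_on with
  | C a =>
    have h1 : ph (C a : A2 k) = Polynomial.C (C a) := by
      unfold ph
      rw [aeval_C]
      rfl
    have h2 : dv (C a : A2 k) = 0 := by
      unfold dv
      exact derivation_C _ a
    rw [h1, h2, map_zero, Polynomial.derivative_C]
  | add p q hp hq =>
    rw [map_add, map_add, map_add, map_add, hp, hq]
  | mul_X p i hp =>
    have hX : Polynomial.derivative (ph (X i : A2 k)) = ph (dv (X i : A2 k)) := by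
      rcases i with i | i
      · have h2 : dv (X (Sum.inl i) : A2 k) = 0 := by
          unfold dv
          rw [mkDerivation_X]
          rfl
        rw [ph_l, h2, map_zero, Polynomial.derivative_C]
      · have h2 : dv (X (Sum.inr i) : A2 k) = X (Sum.inl i) := by
          unfold dv
          rw [mkDerivation_X]
          rfl
        rw [ph_r, h2, ph_l]
        simp
    rw [map_mul, Polynomial.derivative_mul, hp, hX, Derivation.leibniz, map_add, smul_eq_mul,
      smul_eq_mul, map_mul, map_mul]
    ring

lemma ph_eval (p : A2 k) : Polynomial.eval 0 (ph p) = p := by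
  induction p using MvPolynomial.induction_on with
  | C a =>
    have h1 : ph (C a : A2 k) = Polynomial.C (C a) := by
      unfold ph
      rw [aeval_C]
      rfl
    rw [h1, Polynomial.eval_C]
  | add p q hp hq =>
    rw [map_add, Polynomial.eval_add, hp, hq]
  | mul_X p i hp =>
    rw [map_mul, Polynomial.eval_mul, hp]
    congr 1
    rcases i with i | i
    · rw [ph_l, Polynomial.eval_C]
    · rw [ph_r]
      simp

lemma ph_inj : Function.Injective (ph : A2 k →ₐ[k] Polynomial (A2 k)) := by
  intro a b h
  rw [← ph_eval a, ← ph_eval b, h]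

/-- the derivation on the coefficients -/
noncomputable def De : R2 k →ₗ[k] R2 k :=
  Polynomial.lsum (fun n => ((Polynomial.monomial n : A2 k →ₗ[A2 k] R2 k).restrictScalars k).comp
    (dv : Derivation k (A2 k) (A2 k)).toLinearMap)

lemma De_monomial (n : ℕ) (c : A2 k) :
    De (Polynomial.monomial n c : R2 k) = Polynomial.monomial n (dv c) := by
  unfold De
  rw [Polynomial.lsum_apply, Polynomial.sum_monomial_index]
  · rfl
  · simp

lemma De_coeff (N : R2 k) (n : ℕ) : (De N).coeff n = dv (N.coeff n) := by
  induction N using Polynomial.induction_on' with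
  | add p q hp hq => rw [map_add, Polynomial.coeff_add, Polynomial.coeff_add, map_add, hp, hq]
  | monomial m c =>
    rw [De_monomial, Polynomial.coeff_monomial, Polynomial.coeff_monomial]
    split_ifs
    · rfl
    · rw [map_zero]

/-- the homomorphism `y ↦ y + T x` on `R2` -/
noncomputable def phR : R2 k →+* Polynomial (R2 k) :=
  Polynomial.eval₂RingHom (S := Polynomial (R2 k))
    (((Polynomial.mapRingHom (Polynomial.C : A2 k →+* R2 k)).comp
    (ph : A2 k →ₐ[k] Polynomial (A2 k)).toRingHom : A2 k →+* Polynomial (R2 k)))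
    (Polynomial.C (Polynomial.X : R2 k))

lemma phR_monomial (n : ℕ) (c : A2 k) : phR (Polynomial.monomial n c : R2 k) =
    (ph c).map (Polynomial.C : A2 k →+* R2 k) * Polynomial.C (Polynomial.X ^ n) := by
  unfold phR
  rw [Polynomial.coe_eval₂RingHom, Polynomial.eval₂_monomial, map_pow]
  rfl

lemma phR_derivative (N : R2 k) : Polynomial.derivative (phR N) = phR (De N) := by
  induction N using Polynomial.induction_on' with
  | add p q hp hq => rw [map_add, map_add, map_add, map_add, hp, hq]
  | monomial m c =>
    rw [De_monomial, phR_monomial, phR_monomial, Polynomial.derivative_mul,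
      Polynomial.derivative_C, mul_zero, add_zero, Polynomial.derivative_map, ph_derivative]

lemma phR_eval (N : R2 k) : Polynomial.eval 0 (phR N) = N := by
  induction N using Polynomial.induction_on' with
  | add p q hp hq => rw [map_add, Polynomial.eval_add, hp, hq]
  | monomial m c =>
    rw [phR_monomial, Polynomial.eval_mul, Polynomial.eval_C]
    have h1 : Polynomial.eval 0 ((ph c).map (Polynomial.C : A2 k →+* R2 k)) =
        Polynomial.C (Polynomial.eval 0 (ph c)) := by
      rw [Polynomial.eval_map, ← Polynomial.eval₂_at_apply (Polynomial.C : A2 k →+* R2 k) 0,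
        map_zero]
    rw [h1, ph_eval, Polynomial.C_mul_X_pow_eq_monomial]

lemma phR_inj : Function.Injective (phR : R2 k →+* Polynomial (R2 k)) := by
  intro a b h
  rw [← phR_eval a, ← phR_eval b, h]

lemma Inv_iff (N : R2 k) : Inv N ↔ De N = 0 := by
  constructor
  · intro h
    ext1 n
    rw [De_coeff, h n, Polynomial.coeff_zero]
  · intro h j
    rw [← De_coeff, h, Polynomial.coeff_zero]

end

theorem pf_INV : T_INV := by
  intro k _ _
  refine ⟨fun a b hab h => ?_, fun N N' hab h => ?_⟩
  · exact gen (fun p => dv p) (ph : A2 k →ₐ[k] Polynomial (A2 k)).toRingHom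
      (fun p => ph_derivative p) ph_inj hab h
  · rw [Inv_iff] at h ⊢
    exact gen (fun p => De p) phR (fun p => phR_derivative p) phR_inj hab h

end Pool.Agent.H11.SM
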