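import Pool.Agent.H84.SM.Targets

/-!
# MUG: change of the denominator
-/

set_option autoImplicit false

namespace Pool.Agent.H11.SM

open MvPolynomial SC Pool.Agent.H27.LV Pool.Agent.H84.SM

section

variable {k : Type} [Field k]

lemma wh_aeval {w : Fin 3 ⊕ Fin 3 → ℕ} {f : Fin 3 → A2 k} {r : ℕ}
    (hf : ∀ i, IsWeightedHomogeneous w (f i) r) {G : MvPolynomial (Fin 3) k} {d : ℕ}
    (hG : G.IsHomogeneous d) : IsWeightedHomogeneous w (aeval f G) (d * r) := by
  rw [aeval_def, eval₂_eq']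
  apply IsWeightedHomogeneous.sum
  intro m hm
  have h1 : ∑ i, m i = d := by
    have h2 := hG (mem_support_iff.1 hm)
    have h3 : m.degree = Finsupp.weight 1 m := DFunLike.congr_fun Finsupp.degree_eq_weight_one m
    rw [← h2, ← h3, Finsupp.degree_eq_sum]
  have h3 : IsWeightedHomogeneous w (∏ i, f i ^ m i) (∑ i, m i • r) :=
    IsWeightedHomogeneous.prod _ _ _ (fun i _ => (hf i).pow _)
  have h4 : ∑ i, m i • r = d * r := by
    simp only [smul_eq_mul]
    rw [← Finset.sum_mul, h1]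
  rw [h4] at h3
  have h5 := (isWeightedHomogeneous_C w (coeff m G)).mul h3
  rw [zero_add] at h5
  exact h5

lemma BH_gA {G : MvPolynomial (Fin 3) k} {d : ℕ} (hG : G.IsHomogeneous d) :
    BH d 0 (gA G) := by
  constructor
  · have h := wh_aeval (w := wx) (f := xa) (r := 1)
      (fun i => isWeightedHomogeneous_X k wx (Sum.inl i)) hG
    rw [mul_one] at h
    exact h
  · have h := wh_aeval (w := wy) (f := xa) (r := 0)
      (fun i => isWeightedHomogeneous_X k wy (Sum.inl i)) hG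
    rw [mul_zero] at h
    exact h

lemma BH_gA_pow {G : MvPolynomial (Fin 3) k} {d : ℕ} (hG : G.IsHomogeneous d) (j : ℕ) :
    BH (d * j) 0 (gA G ^ j) := by
  obtain ⟨h1, h2⟩ := BH_gA hG
  have h3 := h1.pow j
  have h4 := h2.pow j
  rw [smul_eq_mul, mul_comm] at h3
  rw [smul_zero] at h4
  exact ⟨h3, h4⟩

lemma gR_pow_mul_coeff (G : MvPolynomial (Fin 3) k) (j : ℕ) (N : R2 k) (i : ℕ) :
    (gR G ^ j * N).coeff i = gA G ^ j * N.coeff i := by
  unfold gR
  rw [← map_pow, Polynomial.coeff_C_mul]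

lemma BHN_mul {G : MvPolynomial (Fin 3) k} {d : ℕ} (hG : G.IsHomogeneous d) {e n : ℕ}
    {N : R2 k} (h : BHN e n N) (j : ℕ) : BHN (e + d * j) n (gR G ^ j * N) := by
  intro i
  rw [gR_pow_mul_coeff]
  obtain ⟨h1, h2⟩ := h i
  refine ⟨fun hi => ?_, fun hi => by rw [h2 hi, mul_zero]⟩
  obtain ⟨h3, h4⟩ := h1 hi
  obtain ⟨h5, h6⟩ := BH_gA_pow hG j
  have h7 := h5.mul h3
  have h8 := h6.mul h4
  rw [add_comm] at h7
  rw [zero_add] at h8
  exact ⟨h7, h8⟩

lemma BHN_unmul (hHOM : T_HOM) {G : MvPolynomial (Fin 3) k} {d : ℕ} (hG : G.IsHomogeneous d)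
    (hg0 : gA G ≠ 0) {e n : ℕ} {N : R2 k} (hN : N ≠ 0) (j : ℕ)
    (h : BHN e n (gR G ^ j * N)) : ∃ e' : ℕ, e = e' + d * j ∧ BHN e' n N := by
  have hgA : gA G ^ j ≠ 0 := pow_ne_zero j hg0
  have hgR : gR G ^ j ≠ 0 := pow_ne_zero j (by
    unfold gR
    rw [Ne, Polynomial.C_eq_zero]
    exact hg0)
  obtain ⟨e1, n1, e2, n2, h1, h2, h3, h4⟩ := hHOM k e n (gR G ^ j) N (mul_ne_zero hgR hN) h
  obtain ⟨h5, h6⟩ := (h3 0).1 (by omega)
  have h7 : (gR G ^ j).coeff 0 = gA G ^ j := by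
    have := gR_pow_mul_coeff G j 1 0
    rw [mul_one, Polynomial.coeff_one_zero, mul_one] at this
    exact this
  rw [h7] at h5 h6
  obtain ⟨h8, h9⟩ := BH_gA_pow hG j
  have h10 : e1 = d * j := IsWeightedHomogeneous.inj_right hgA h5 h8
  have h11 : n1 - 3 * 0 = 0 := IsWeightedHomogeneous.inj_right hgA h6 h9
  have h12 : n2 = n := by omega
  rw [h12] at h4
  exact ⟨e2, by omega, h4⟩

lemma dv_aeval_xa (G : MvPolynomial (Fin 3) k) : dv (gA G) = 0 := by
  unfold gA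
  induction G using MvPolynomial.induction_on with
  | C a =>
    rw [aeval_C]
    exact derivation_C _ a
  | add p q hp hq => rw [map_add, map_add, hp, hq, add_zero]
  | mul_X p i hp =>
    have h2 : dv (xa i : A2 k) = 0 := by
      unfold dv xa
      rw [mkDerivation_X]
      rfl
    rw [map_mul, aeval_X, Derivation.leibniz, hp, h2, smul_zero, smul_zero, add_zero]

lemma dv_gA_pow_mul (G : MvPolynomial (Fin 3) k) (j : ℕ) (c : A2 k) :
    dv (gA G ^ j * c) = gA G ^ j * dv c := by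
  have h : dv (gA G ^ j) = 0 := by
    rw [Derivation.leibniz_pow, dv_aeval_xa, smul_zero, smul_zero]
  rw [Derivation.leibniz, h, smul_zero, add_zero, smul_eq_mul]

lemma Inv_mul_iff {G : MvPolynomial (Fin 3) k} (hg0 : gA G ≠ 0) (j : ℕ) (N : R2 k) :
    Inv (gR G ^ j * N) ↔ Inv N := by
  unfold Pool.Agent.H84.SM.Inv
  refine forall_congr' fun i => ?_
  rw [gR_pow_mul_coeff, dv_gA_pow_mul, mul_eq_zero, or_iff_right (pow_ne_zero j hg0)]

end

theorem pf_MUG (hORK : T_ORK) (hGPR : T_GPR) (hPSG : T_PSG) (_hINV : T_INV) (hHOM : T_HOM) :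
    T_MUG := by
  intro k _ _ _ G d hd hS hI n M j τ N hN
  obtain ⟨hp1, _, hp3, _, _⟩ := hGPR k G d hd hS hI
  have hgp : gp G ≠ 0 := hp1.ne_zero
  have hgA : gA G ≠ 0 := hp3.ne_zero
  have hPsi : ∀ l, Psi G d l (gR G) = gp G := fun l => (hPSG k G d l).1
  have hfwd : ∀ (τ : ℤ) (M j M' : ℕ), IsSec G d n τ M N → M' ≤ M + j →
      IsSec G d n (τ + d * j - d * (M' - M)) M' (gR G ^ j * N) := by
    intro τ M j M' h hM'
    obtain ⟨h1, ⟨e, he, h2⟩, h3⟩ := h
    refine ⟨(Inv_mul_iff hgA j N).2 h1, ⟨e + d * j, ?_, BHN_mul hS.1 h2 j⟩, fun l => ?_⟩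
    · push_cast
      linear_combination he
    · rw [map_mul, map_pow, hPsi]
      refine (pow_dvd_pow _ hM').trans ?_
      rw [pow_add, mul_comm]
      exact mul_dvd_mul_left _ (h3 l)
  refine ⟨⟨fun h => ?_, fun h => ?_⟩, fun h => ?_, fun ⟨l, hl⟩ h => ?_⟩
  · have h1 := hfwd τ M j (M + j) h le_rfl
    have h2 : τ + d * j - d * (((M + j : ℕ) : ℤ) - M) = τ := by
      push_cast
      ring
    rw [h2] at h1
    exact h1
  · obtain ⟨h1, ⟨e, he, h2⟩, h3⟩ := h
    obtain ⟨e', he', h4⟩ := BHN_unmul hHOM hS.1 hgA hN j h2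
    refine ⟨(Inv_mul_iff hgA j N).1 h1, ⟨e', ?_, h4⟩, fun l => ?_⟩
    · rw [he'] at he
      push_cast at he
      linear_combination he
    · have h5 := h3 l
      rw [map_mul, map_pow, hPsi, add_comm, pow_add] at h5
      exact (mul_dvd_mul_iff_left (pow_ne_zero j hgp)).1 h5
  · have h1 := hfwd τ M 1 M h (by omega)
    have h2 : τ + d * ((1 : ℕ) : ℤ) - d * ((M : ℤ) - M) = τ + d := by
      push_cast
      ring
    rw [h2, pow_one] at h1
    exact h1
  · obtain ⟨h1, ⟨e, he, h2⟩, h3⟩ := h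
    refine ⟨h1, ⟨e, ?_, h2⟩, fun l' => hORK k G d hd hS hI e n (M + 1) N h2 l l' hl⟩
    push_cast
    linear_combination he

end Pool.Agent.H11.SM
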