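import Pool.Agent.H84.SM.Targets

/-!
# PSG: values of the substitution
-/

set_option autoImplicit false

namespace Pool.Agent.H11.SM

open MvPolynomial SC Pool.Agent.H27.LV Pool.Agent.H84.SM

section

variable {k : Type} [Field k]

lemma psg_gA {B : Type} [CommRing B] [Algebra k B] (x y : Fin 3 → B)
    (G : MvPolynomial (Fin 3) k) :
    (aeval (Sum.elim x y) : A2 k →ₐ[k] B) (gA G) = aeval x G := by
  unfold gA
  rw [MvPolynomial.comp_aeval_apply]
  congr 1
  congr 1
  funext i
  unfold xa
  rw [aeval_X]
  rfl

lemma psi_monomial (G : MvPolynomial (Fin 3) k) (d : ℕ) (l : Fin 3) (n : ℕ) (c : A2 k) :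
    Psi G d l (Polynomial.monomial n c) =
      Polynomial.C ((aeval (Sum.elim xb (chy G l)) : A2 k →ₐ[k] B2 k) c) * chw G d l ^ n := by
  unfold Psi
  rw [Polynomial.coe_eval₂RingHom, Polynomial.eval₂_monomial]
  rfl

lemma chw_derivative (G : MvPolynomial (Fin 3) k) (d : ℕ) (l : Fin 3) :
    Polynomial.derivative (chw G d l) = Polynomial.C ((d : B2 k)) * gp G := by
  unfold chw gp
  rw [Polynomial.derivative_sub, Polynomial.derivative_C, sub_zero, Polynomial.derivative_mul,
    Polynomial.derivative_C, zero_mul, zero_add, Polynomial.derivative_X, mul_one, map_mul]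

end

theorem pf_PSG : T_PSG := by
  intro k _ G d l
  refine ⟨?_, ?_, ?_⟩
  · have h : gR G = Polynomial.monomial 0 (gA G) := rfl
    rw [h, psi_monomial, psg_gA, pow_zero, mul_one]
    rfl
  · intro N
    induction N using Polynomial.induction_on' with
    | add p q hp hq =>
      rw [map_add, Polynomial.derivative_add, Polynomial.derivative_add, map_add, hp, hq]
      ring
    | monomial m c =>
      rw [Polynomial.derivative_monomial, psi_monomial, psi_monomial,
        Polynomial.derivative_mul, Polynomial.derivative_C, zero_mul, zero_add,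
        Polynomial.derivative_pow, chw_derivative, map_mul, map_mul]
      have h : (aeval (Sum.elim xb (chy G l)) : A2 k →ₐ[k] B2 k) (m : A2 k) = (m : B2 k) :=
        map_natCast _ m
      rw [h]
      ring
  · intro L _ _ x y w
    unfold ev gR
    rw [Polynomial.coe_eval₂RingHom, Polynomial.eval₂_C]
    exact psg_gA x y G

end Pool.Agent.H11.SM
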