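import Pool.Agent.H11.SM.MUG
import Pool.Agent.H11.SM.PSG

/-!
# UBL: leading coefficients of sections
-/

set_option autoImplicit false

namespace Pool.Agent.H11.SM

open MvPolynomial SC Pool.Agent.H27.LV Pool.Agent.H84.SM

section

variable {k : Type} [Field k]

lemma chw_natDegree (G : MvPolynomial (Fin 3) k) (d : ℕ) (l : Fin 3) :
    (chw G d l).natDegree ≤ 1 := by
  unfold chw
  refine (Polynomial.natDegree_sub_le _ _).trans (max_le ?_ ?_)
  · refine (Polynomial.natDegree_C_mul_le _ _).trans ?_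
    exact Polynomial.natDegree_X_le
  · rw [Polynomial.natDegree_C]
    exact Nat.zero_le _

lemma chw_coeff_one (G : MvPolynomial (Fin 3) k) (d : ℕ) (l : Fin 3) :
    (chw G d l).coeff 1 = (d : B2 k) * aeval xb G := by
  unfold chw
  rw [Polynomial.coeff_sub, Polynomial.coeff_C_mul, Polynomial.coeff_X_one, mul_one,
    Polynomial.coeff_C]
  simp

lemma psi_coeff (G : MvPolynomial (Fin 3) k) (d : ℕ) (l : Fin 3) (N : R2 k) (J : ℕ)
    (hN : ∀ j, J < j → N.coeff j = 0) :
    (Psi G d l N).coeff J = (aeval (Sum.elim xb (chy G l)) : A2 k →ₐ[k] B2 k) (N.coeff J) *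
      ((d : B2 k) * aeval xb G) ^ J := by
  have h1 : N.natDegree < J + 1 := by
    rw [Nat.lt_succ_iff, Polynomial.natDegree_le_iff_coeff_eq_zero]
    exact hN
  have h2 : Psi G d l N = ∑ j ∈ Finset.range (J + 1), Psi G d l (Polynomial.monomial j
      (N.coeff j)) := by
    conv_lhs => rw [Polynomial.as_sum_range' N (J + 1) h1]
    rw [map_sum]
  rw [h2, Polynomial.finsetSum_coeff, Finset.sum_range_succ, Finset.sum_eq_zero, zero_add]
  · rw [psi_monomial, Polynomial.coeff_C_mul]
    congr 1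
    have h3 := Polynomial.coeff_pow_of_natDegree_le (m := J) (chw_natDegree G d l)
    rw [mul_one, chw_coeff_one] at h3
    exact h3
  · intro j hj
    rw [psi_monomial, Polynomial.coeff_C_mul]
    have h3 : (chw G d l ^ j).natDegree ≤ j := by
      refine (Polynomial.natDegree_pow_le).trans ?_
      calc j * (chw G d l).natDegree ≤ j * 1 := Nat.mul_le_mul_left _ (chw_natDegree G d l)
        _ = j := mul_one j
    rw [Polynomial.coeff_eq_zero_of_natDegree_lt (lt_of_le_of_lt h3 (Finset.mem_range.1 hj)),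
      mul_zero]

lemma sec_coeff (G : MvPolynomial (Fin 3) k) (M : ℕ) (N : R2 k) (J : ℕ) :
    (sec G M N).coeff J = (gF G ^ M)⁻¹ * algebraMap (A2 k) (F2 k) (N.coeff J) := by
  unfold sec
  rw [Polynomial.coeff_C_mul, Polynomial.coeff_map]

end

theorem pf_UBL (hSAB : T_SAB) (hBMF : T_BMF) (hGPR : T_GPR) : T_UBL := by
  intro k _ _ _ G d hd hS hI n M τ N hsec J hJ hN
  obtain ⟨_, hp2, hp3, _, _⟩ := hGPR k G d hd hS hI
  obtain ⟨hb1, hb2, hb3⟩ := hBMF k G d hd hS
  obtain ⟨h1, ⟨e, he, h2⟩, h3⟩ := hsec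
  have hgA : gA G ≠ 0 := hp3.ne_zero
  have hgF : gF G ≠ 0 := by
    unfold gF
    rw [Ne, FaithfulSMul.algebraMap_eq_zero_iff]
    exact hgA
  have hGb : (aeval xb G : B2 k) ≠ 0 := hp2.ne_zero
  obtain ⟨c, hc⟩ : ∃ c : A2 k, c = N.coeff J := ⟨_, rfl⟩
  have hdc : dv c = 0 := by
    rw [hc]
    exact h1 J
  have hBc : BH e (n - 3 * J) c := by
    rw [hc]
    exact (h2 J).1 hJ
  have hbc : bm G d c = algebraMap (A2 k) (F2 k) c := hb3 c hdc
  rw [sec_coeff, ← hc]
  rcases Nat.lt_or_ge J M with hJM | hMJ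
  · have hdv : ∀ l, aeval xb G ^ (M - J) ∣ (aeval (Sum.elim xb (chy G l)) c : B2 k) := by
      intro l
      have h4 : Polynomial.C ((aeval xb G : B2 k) ^ M) ∣ Psi G d l N := by
        rw [map_pow]
        exact h3 l
      have h5 := (Polynomial.C_dvd_iff_dvd_coeff _ _).1 h4 J
      rw [psi_coeff G d l N J hN, ← hc, mul_pow] at h5
      have h6 : IsUnit ((d : B2 k) ^ J) := by
        apply IsUnit.pow
        have h7 : (d : B2 k) = C (d : k) := (map_natCast C d).symm
        rw [h7]
        exact (IsUnit.mk0 (d : k) (by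
          rw [Nat.cast_ne_zero]
          omega)).map C
      have h8 : aeval xb G ^ J * aeval xb G ^ (M - J) ∣
          aeval xb G ^ J * ((aeval (Sum.elim xb (chy G l)) c : B2 k) * (d : B2 k) ^ J) := by
        rw [← pow_add, show J + (M - J) = M by omega]
        refine h5.trans (dvd_of_eq ?_)
        ring
      have h9 := (mul_dvd_mul_iff_left (pow_ne_zero J hGb)).1 h8
      exact (h6.dvd_mul_right).1 h9
    obtain ⟨b, hb, hb'⟩ := hSAB k G d hd hS hI e (n - 3 * J) (M - J) c hBc hdv
    have h10 : algebraMap (A2 k) (F2 k) c = gF G ^ (M - J) * bm G d b := by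
      have h11 := (hb1 _).2 hb
      rw [map_sub, map_mul, map_pow, hb2, sub_eq_zero, hbc] at h11
      exact h11
    have h12 : (gF G ^ M)⁻¹ * algebraMap (A2 k) (F2 k) c * gF G ^ J = bm G d b := by
      rw [h10]
      have h13 : gF G ^ M = gF G ^ (M - J) * gF G ^ J := by
        rw [← pow_add]
        congr 1
        omega
      rw [h13]
      have h14 : gF G ^ (M - J) ≠ 0 := pow_ne_zero _ hgF
      have h15 : gF G ^ J ≠ 0 := pow_ne_zero _ hgF
      field_simp
    rw [h12]
    rcases hb' with hb' | ⟨e', he', hBb⟩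
    · rw [hb', map_zero]
      exact Submodule.zero_mem _
    · refine Submodule.subset_span ⟨e', b, ?_, hBb, rfl⟩
      have h16 : ((e' : ℤ) + d * ((M : ℤ) - J)) = e := by
        have : ((M - J : ℕ) : ℤ) = (M : ℤ) - J := Nat.cast_sub hJM.le
        rw [← this]
        exact_mod_cast he'
      linear_combination h16 + he
  · have h12 : (gF G ^ M)⁻¹ * algebraMap (A2 k) (F2 k) c * gF G ^ J =
        bm G d (gA G ^ (J - M) * c) := by
      rw [map_mul, map_pow, hb2, hbc]
      have h13 : gF G ^ J = gF G ^ (J - M) * gF G ^ M := by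
        rw [← pow_add]
        congr 1
        omega
      rw [h13]
      have h14 : gF G ^ M ≠ 0 := pow_ne_zero _ hgF
      field_simp
    rw [h12]
    obtain ⟨h5, h6⟩ := BH_gA_pow (G := G) hS.1 (J - M)
    have h7 := h5.mul hBc.1
    have h8 := h6.mul hBc.2
    rw [zero_add] at h8
    refine Submodule.subset_span ⟨d * (J - M) + e, _, ?_, ⟨h7, h8⟩, rfl⟩
    have : ((J - M : ℕ) : ℤ) = (J : ℤ) - M := Nat.cast_sub hMJ
    push_cast
    rw [this]
    linear_combination he

end Pool.Agent.H11.SM
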