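import Pool.Agent.H20.SM.TW
import Pool.Agent.H65.CRG.All
import Pool.Agent.H23.CRZ.BM

/-!
BMw: the main term (board sm_modules, MP_347b49_nt). The model is `Pool/Agent/H39/CRG/BM.lean`.
-/

set_option autoImplicit false

open NumberField NumberField.InfinitePlace Complex Filter Topology MeasureTheory

namespace Pool.Agent.H11.SM

open Pool.Agent.H20.SM
open Pool.Agent.H28.RC Pool.Agent.H25.HK Pool.Agent.H37.CV Pool.Agent.H65.CRZ Pool.Agent.H65.CRG
open Pool.Agent.H23.CRZ (one_term combine)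

/-- the size of the main term of the quadratic form -/
theorem bmw_FF (a b w : ℂ) (l C₀ : ℝ) (hl : 0 < l) (ha : ‖a‖ ≤ C₀ / l) (hb : ‖b‖ ≤ C₀ / l)
    (hw : ‖w‖ ≤ C₀ / l) : ‖FFw a b w l‖ ≤ (Real.exp (3 * C₀) * ((1 + C₀) * (1 + C₀))) * l := by
  have hC : 0 ≤ C₀ / l := (norm_nonneg _).trans ha
  have hC0 : 0 ≤ C₀ := by
    by_contra h
    push Not at h
    have : C₀ / l < 0 := div_neg_of_neg_of_pos h hl
    linarith
  unfold FFw
  have h1 : ∀ v ∈ Set.uIoc (0 : ℝ) l, ‖cexp ((w - a - b) * v) *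
      ((1 + a * ((l - v : ℝ) : ℂ)) * (1 + b * ((l - v : ℝ) : ℂ)))‖ ≤
        Real.exp (3 * C₀) * ((1 + C₀) * (1 + C₀)) := by
    intro v hv
    rw [Set.uIoc_of_le hl.le] at hv
    obtain ⟨hv0, hvl⟩ := hv
    have hlv : ∀ z : ℂ, ‖z‖ ≤ C₀ / l → ‖1 + z * ((l - v : ℝ) : ℂ)‖ ≤ 1 + C₀ := by
      intro z hz
      refine (norm_add_le _ _).trans ?_
      rw [norm_one, norm_mul, Complex.norm_real, Real.norm_eq_abs, abs_of_nonneg (by linarith)]
      have h2 : ‖z‖ * (l - v) ≤ C₀ / l * l :=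
        mul_le_mul hz (by linarith) (by linarith) hC
      rw [div_mul_cancel₀ _ hl.ne'] at h2
      linarith
    rw [norm_mul, norm_mul, Complex.norm_exp]
    refine mul_le_mul (Real.exp_le_exp.2 ?_)
      (mul_le_mul (hlv a ha) (hlv b hb) (norm_nonneg _) (by linarith)) (by positivity)
      (Real.exp_pos _).le
    refine (Complex.re_le_norm _).trans ?_
    rw [norm_mul, Complex.norm_real, Real.norm_eq_abs, abs_of_pos hv0]
    have h3 : ‖w - a - b‖ ≤ 3 * (C₀ / l) := by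
      have h4 := norm_sub_le (w - a) b
      have h5 := norm_sub_le w a
      linarith
    have h6 : ‖w - a - b‖ * v ≤ 3 * (C₀ / l) * l :=
      mul_le_mul h3 hvl hv0.le (by positivity)
    have h7 : 3 * (C₀ / l) * l = 3 * C₀ := by field_simp
    linarith
  have h2 := intervalIntegral.norm_integral_le_of_norm_le_const h1
  rw [sub_zero, abs_of_pos hl] at h2
  exact h2

theorem pf_BMw (hSD : T_SDw) : T_BMw := by
  intro K _ _ _ E Cₐ c C₀ hE hCₐ hc hC₀
  obtain ⟨C₃, B, hC₃, hB, hG3⟩ := d_G3 (nrComplexPlaces K)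
  refine ⟨B, hB, fun η hη => ?_⟩
  have hrho : 0 < rho K := dedekindZeta_residue_pos K
  -- constants
  set C₁ : ℝ := Real.exp (3 * (2 * C₀)) * ((1 + 2 * C₀) * (1 + 2 * C₀)) with hC₁
  have hC₁0 : 0 < C₁ := by positivity
  set X₀ : ℝ := Real.exp (4 * C₀ * Cₐ) with hX₀
  have hX₀0 : 0 < X₀ := Real.exp_pos _
  set D : ℝ := 1 + X₀ * (2 + C₁ / c) with hD
  have hD0 : 0 < D := by positivity
  set t : ℝ := min 1 (η / D) with ht
  have ht0 : 0 < t := lt_min one_pos (div_pos hη hD0)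
  have ht1 : t ≤ 1 := min_le_left _ _
  have htD : t * D ≤ η := by
    have := mul_le_mul_of_nonneg_right (min_le_right 1 (η / D)) hD0.le
    rwa [div_mul_cancel₀ _ hD0.ne'] at this
  -- the function `E` near `1`
  have hder : HasDerivAt E (deriv E 1) 1 := (hE.1 1).hasDerivAt
  obtain ⟨C₂, hC₂, hO⟩ := hder.isBigO_sub.exists_pos
  rw [Asymptotics.isBigOWith_iff] at hO
  obtain ⟨r₀, hr₀, hr⟩ := Metric.eventually_nhds_iff.1 hO
  have hEb : ∀ z : ℂ, ‖z‖ < r₀ → ‖E (1 + z) - rho K‖ ≤ C₂ * ‖z‖ := by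
    intro z hz
    have h4 := @hr (1 + z) (by rw [dist_eq_norm]; simpa using hz)
    rw [hE.2.2.1] at h4
    simpa using h4
  -- the error of the quadratic form
  set η' : ℝ := min 1 (c * t / 2) with hη'
  have hη'0 : 0 < η' := lt_min one_pos (by positivity)
  have hη'1 : η' ≤ 1 := min_le_left _ _
  have hη'2 : η' ≤ c * t / 2 := min_le_right _ _
  obtain ⟨M₀, hM₀, hSDK⟩ := hSD K (2 * C₀) η' (by positivity) hη'0
  obtain ⟨M₁, hM₁⟩ := eventually_atTop.1 (Real.tendsto_log_atTop.eventually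
    (eventually_ge_atTop (1 + 16 * C₀ + 4 * C₀ / r₀ + 2 * C₀ * C₃ / t +
      2 * C₂ * (C₁ + 1) / (rho K * t))))
  refine ⟨max (max M₀ M₁) 2, fun M A hMM hA1 hA2 α β γ u hα hβ hω hγ0 hγ => ?_⟩
  have hM : M₀ ≤ M := (le_max_left _ _).trans ((le_max_left _ _).trans hMM)
  have hlog := hM₁ M ((le_max_right _ _).trans ((le_max_left _ _).trans hMM))
  have hM2 : (2 : ℝ) ≤ M := (le_max_right _ _).trans hMM
  have hMpos : 0 < M := by linarith
  set l : ℝ := Real.log M with hldef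
  have p1 : 0 ≤ 4 * C₀ / r₀ := by positivity
  have p2 : 0 ≤ 2 * C₀ * C₃ / t := by positivity
  have p4 : 0 ≤ 2 * C₂ * (C₁ + 1) / (rho K * t) := by positivity
  have a1 : 16 * C₀ ≤ l := by linarith
  have a2 : 4 * C₀ / r₀ ≤ l := by linarith
  have a3 : 2 * C₀ * C₃ / t ≤ l := by linarith
  have a5 : 2 * C₂ * (C₁ + 1) / (rho K * t) ≤ l := by linarith
  have hl0 : 0 < l := by linarith
  -- the parameters
  have hA0 : 0 < A := by linarith
  have hAC : ((A : ℝ) : ℂ) ≠ 0 := by exact_mod_cast hA0.ne'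
  have hlA0 : 0 ≤ Real.log A := Real.log_nonneg (by linarith)
  have hlA : Real.log A ≤ Cₐ * l := by
    rw [hldef, ← Real.log_rpow hMpos]
    exact Real.log_le_log hA0 hA2
  have hγn : ‖(γ : ℂ)‖ ≤ C₀ / l := by
    rw [Complex.norm_real, Real.norm_eq_abs, abs_of_nonneg hγ0]
    exact hγ
  have h2C : C₀ / l + C₀ / l = 2 * C₀ / l := by ring
  have hαγ : ‖α + γ‖ ≤ 2 * C₀ / l := by
    refine (norm_add_le _ _).trans ?_
    rw [← h2C]
    exact add_le_add hα hγn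
  have hβγ : ‖β + γ‖ ≤ 2 * C₀ / l := by
    refine (norm_add_le _ _).trans ?_
    rw [← h2C]
    exact add_le_add hβ hγn
  have hαγ' : ‖-α + γ‖ ≤ 2 * C₀ / l := by
    refine (norm_add_le _ _).trans ?_
    rw [← h2C, norm_neg]
    exact add_le_add hα hγn
  have hβγ' : ‖-β + γ‖ ≤ 2 * C₀ / l := by
    refine (norm_add_le _ _).trans ?_
    rw [← h2C, norm_neg]
    exact add_le_add hβ hγn
  have hωup : ‖α + β‖ ≤ 2 * C₀ / l := by
    refine (norm_add_le _ _).trans ?_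
    rw [← h2C]
    exact add_le_add hα hβ
  have hωup' : ‖-(α + β)‖ ≤ 2 * C₀ / l := by rwa [norm_neg]
  have hω0 : 0 < ‖α + β‖ := lt_of_lt_of_le (by positivity) hω
  have hωne : α + β ≠ 0 := norm_pos_iff.1 hω0
  have hωl : c ≤ ‖α + β‖ * l := by
    rw [div_le_iff₀ hl0] at hω
    exact hω
  have hωr : ‖α + β‖ < r₀ := by
    refine lt_of_le_of_lt hωup ?_
    rw [div_lt_iff₀ hl0]
    rw [div_le_iff₀ hr₀] at a2
    have h4 : l * r₀ = r₀ * l := mul_comm _ _
    linarith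
  -- the two terms
  have hF₁ := bmw_FF (α + γ) (β + γ) (α + β) l (2 * C₀) hl0 hαγ hβγ hωup
  have hF₂ := bmw_FF (-β + γ) (-α + γ) (-(α + β)) l (2 * C₀) hl0 hβγ' hαγ' hωup'
  rw [← hC₁] at hF₁ hF₂
  have hS₁ := hSDK M (α + γ) (β + γ) (α + β) hM hαγ hβγ hωup
  have hS₂ := hSDK M (-β + γ) (-α + γ) (-(α + β)) hM hβγ' hαγ' hωup'
  rw [← hldef] at hS₁ hS₂
  have he₁ := hEb (α + β) hωr
  have he₂ : ‖E (1 - (α + β)) - rho K‖ ≤ C₂ * ‖α + β‖ := by
    have h4 := hEb (-(α + β)) (by rwa [norm_neg])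
    rwa [norm_neg, ← sub_eq_add_neg] at h4
  have t₁ := one_term (rho K) l C₁ C₂ η' (α + β) (E (1 + (α + β)))
    (QF K M (α + γ) (β + γ) (α + β) ∅ ∅)
    (FFw (α + γ) (β + γ) (α + β) l) hrho hl0 hωne hC₂.le hF₁ hS₁ he₁
  have t₂ := one_term (rho K) l C₁ C₂ η' (α + β) (E (1 - (α + β)))
    (QF K M (-β + γ) (-α + γ) (-(α + β)) ∅ ∅)
    (FFw (-β + γ) (-α + γ) (-(α + β)) l) hrho hl0 hωne hC₂.le hF₂ hS₂ he₂
  have hδ : C₂ * (C₁ + η') / (rho K * l) + η' / (‖α + β‖ * l) ≤ t := by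
    have h4 : C₂ * (C₁ + η') / (rho K * l) ≤ t / 2 := by
      rw [div_le_iff₀ (by positivity)]
      rw [div_le_iff₀ (by positivity)] at a5
      have h5 : C₂ * (C₁ + η') ≤ C₂ * (C₁ + 1) :=
        mul_le_mul_of_nonneg_left (by linarith) hC₂.le
      have h6 : t / 2 * (rho K * l) = l * (rho K * t) / 2 := by
        ring
      rw [h6]
      linarith
    have h7 : η' / (‖α + β‖ * l) ≤ t / 2 := by
      have h8 : η' / (‖α + β‖ * l) ≤ η' / c := div_le_div_of_nonneg_left hη'0.le hc hωl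
      have h9 : η' / c ≤ (c * t / 2) / c := div_le_div_of_nonneg_right hη'2 hc.le
      have h10 : (c * t / 2) / c = t / 2 := by field_simp
      linarith
    linarith
  -- the Gamma factors
  have hg := hG3 α β u (hα.trans (by rw [div_le_iff₀ hl0]; linarith))
    (hβ.trans (by rw [div_le_iff₀ hl0]; linarith))
  set g : ℂ := (Gamma (1 - (1 / 2 + α + u * I)) * Gamma (1 - (1 / 2 + β - u * I)) /
      (Gamma (1 / 2 + α + u * I) * Gamma (1 / 2 + β - u * I))) ^ nrComplexPlaces K with hgdef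
  have hU : (1 : ℝ) ≤ (1 + |u|) ^ B := Real.one_le_rpow (by linarith [abs_nonneg u]) hB
  have hg' : ‖g - 1‖ ≤ t * (1 + |u|) ^ B := by
    refine hg.trans (mul_le_mul_of_nonneg_right ?_ (by linarith))
    have h4 : ‖α‖ + ‖β‖ ≤ 2 * C₀ / l := by
      rw [← h2C]
      exact add_le_add hα hβ
    have h5 := mul_le_mul_of_nonneg_left h4 hC₃.le
    refine h5.trans ?_
    rw [← mul_div_assoc, div_le_iff₀ hl0]
    rw [div_le_iff₀ ht0] at a3
    linarith
  -- the exponential factor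
  have hXf : Xn (nrComplexPlaces K) A (1 / 2 + α + u * I) (1 / 2 + β - u * I) =
      cexp (-(α + β) * ((2 * Real.log A : ℝ) : ℂ)) * g := by
    unfold Xn
    rw [← hgdef]
    congr 1
    rw [Complex.cpow_def_of_ne_zero hAC, ← Complex.ofReal_log hA0.le]
    congr 1
    push_cast
    ring
  have hxn : ‖cexp (-(α + β) * ((2 * Real.log A : ℝ) : ℂ))‖ ≤ X₀ := by
    rw [Complex.norm_exp, hX₀]
    refine Real.exp_le_exp.2 ((Complex.re_le_norm _).trans ?_)
    rw [norm_mul, norm_neg, Complex.norm_real, Real.norm_eq_abs, abs_of_nonneg (by linarith)]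
    have h4 : ‖α + β‖ * (2 * Real.log A) ≤ 2 * C₀ / l * (2 * (Cₐ * l)) :=
      mul_le_mul hωup (by linarith) (by linarith) (by positivity)
    refine h4.trans (le_of_eq ?_)
    field_simp
    ring
  have hfin := combine (α + β) (FFw (α + γ) (β + γ) (α + β) l)
    (FFw (-β + γ) (-α + γ) (-(α + β)) l)
    _ _ g (cexp (-(α + β) * ((2 * Real.log A : ℝ) : ℂ))) l t ((1 + |u|) ^ B) X₀ C₁ c η hl0 ht0.le
    ht1 hU hxn hc hωl hF₂ (t₁.trans hδ) (t₂.trans hδ) hg' hC₁0.le htD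
  rw [hXf]
  unfold Bmw
  exact hfin

end Pool.Agent.H11.SM
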