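import Pool.Agent.H20.SM.TP

/-!
C4F: lower bound by the 3-4-1 inequality (board sm_modules, MP_347b49_nt).
-/

set_option autoImplicit false

open NumberField NumberField.InfinitePlace Complex Filter Topology

namespace Pool.Agent.H11.SM

open Pool.Agent.H20.SM
open Pool.Agent.H30.BV (cv DS)

/-- a function with `f' = - f G`, `Re G ≥ 0` and limit `1` is at least `1` in absolute value -/
theorem c4f_trick (f G : ℝ → ℂ) (hd : ∀ x : ℝ, 1 < x → HasDerivAt f (-(f x * G x)) x)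
    (hG : ∀ x : ℝ, 1 < x → 0 ≤ (G x).re) (hlim : Tendsto f atTop (𝓝 1)) {x : ℝ} (hx : 1 < x) :
    1 ≤ ‖f x‖ := by
  have h1 : ∀ y : ℝ, 1 < y → HasDerivAt (fun y => ‖f y‖ ^ 2) (-(2 * (‖f y‖ ^ 2 * (G y).re))) y := by
    intro y hy
    have h2 := (hd y hy).norm_sq
    have h3 : 2 * inner ℝ (f y) (-(f y * G y)) = -(2 * (‖f y‖ ^ 2 * (G y).re)) := by
      rw [Complex.inner, mul_comm (-(f y * G y))]
      have h4 : (starRingEnd ℂ) (f y) * (-(f y * G y)) = -((‖f y‖ ^ 2 : ℝ) * G y) := by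
        have h5 : (starRingEnd ℂ) (f y) * f y = ((‖f y‖ ^ 2 : ℝ) : ℂ) := by
          rw [Complex.conj_mul']
          push_cast
          rfl
        rw [mul_neg, ← mul_assoc, h5]
      rw [h4, Complex.neg_re, Complex.re_ofReal_mul]
      ring
    rw [h3] at h2
    exact h2
  have h2 : AntitoneOn (fun y => ‖f y‖ ^ 2) (Set.Ioi 1) := by
    apply antitoneOn_of_deriv_nonpos (convex_Ioi 1)
    · intro y hy
      exact (h1 y hy).continuousAt.continuousWithinAt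
    · rw [interior_Ioi]
      intro y hy
      exact (h1 y hy).differentiableAt.differentiableWithinAt
    · rw [interior_Ioi]
      intro y hy
      rw [(h1 y hy).deriv]
      have := mul_nonneg (sq_nonneg ‖f y‖) (hG y hy)
      linarith
  have h3 : Tendsto (fun y => ‖f y‖ ^ 2) atTop (𝓝 1) := by
    have := (hlim.norm).pow 2
    rwa [norm_one, one_pow] at this
  have h4 : 1 ≤ ‖f x‖ ^ 2 := by
    refine le_of_tendsto h3 ?_
    filter_upwards [eventually_ge_atTop x] with y hy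
    exact h2 hx (lt_of_lt_of_le hx hy) hy
  by_contra h5
  push Not at h5
  have h6 : ‖f x‖ ^ 2 < 1 := by
    have h7 := norm_nonneg (f x)
    nlinarith
  linarith

theorem c4f_ds0 (a : ℕ → ℂ) (s : ℂ) : DS a 0 s = LSeries a s := by
  unfold DS
  congr 1
  funext n
  simp

theorem c4f_ds1 (a : ℕ → ℂ) (s : ℂ) : DS a 1 s = LSeries (LSeries.logMul a) s := by
  unfold DS
  congr 1
  funext n
  unfold LSeries.logMul
  rw [pow_one, Complex.ofReal_log (Nat.cast_nonneg n), Complex.ofReal_natCast, mul_comm]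

/-- the derivative along a vertical shift -/
theorem c4f_path {a : ℕ → ℂ} (ha : ∀ s : ℂ, 1 < s.re → LSeriesSummable a s) (w : ℂ) (hw : w.re = 0)
    {x : ℝ} (hx : 1 < x) :
    HasDerivAt (fun y : ℝ => DS a 0 ((y : ℂ) + w)) (-(DS a 1 ((x : ℂ) + w))) x := by
  have hre : ((x : ℂ) + w).re = x := by simp [hw]
  have h1 : LSeries.abscissaOfAbsConv a < (((x : ℂ) + w).re : EReal) := by
    rw [hre]
    refine lt_of_le_of_lt (LSeries.abscissaOfAbsConv_le_of_forall_lt_LSeriesSummable (x := 1) ?_)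
      (by exact_mod_cast hx)
    intro y hy
    exact ha y (by simpa using hy)
  have h2 := LSeries_hasDerivAt h1
  have h3 : HasDerivAt (fun z : ℂ => DS a 0 (z + w)) (-(DS a 1 ((x : ℂ) + w))) (x : ℂ) := by
    rw [c4f_ds1]
    have h4 : (fun z : ℂ => DS a 0 (z + w)) = fun z => LSeries a (z + w) := by
      funext z
      rw [c4f_ds0]
    rw [h4]
    exact HasDerivAt.comp_add_const (x : ℂ) w h2
  exact h3.comp_ofReal

/-- the limit at infinity -/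
theorem c4f_lim {a : ℕ → ℂ} (ha : ∀ s : ℂ, 1 < s.re → LSeriesSummable a s) (w : ℂ)
    (hw : w.re = 0) : Tendsto (fun y : ℝ => DS a 0 ((y : ℂ) + w)) atTop (𝓝 (a 1)) := by
  obtain ⟨b, hb⟩ : ∃ b : ℕ → ℂ, ∀ n, b n = a n * ((n : ℂ) ^ w)⁻¹ := ⟨_, fun _ => rfl⟩
  have h0 : ∀ (y : ℂ) (n : ℕ), LSeries.term b y n = LSeries.term a (y + w) n := by
    intro y n
    rcases Nat.eq_zero_or_pos n with rfl | hn
    · rw [LSeries.term_zero, LSeries.term_zero]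
    · have hn0 : (n : ℂ) ≠ 0 := by exact_mod_cast hn.ne'
      rw [LSeries.term_of_ne_zero hn.ne', LSeries.term_of_ne_zero hn.ne', hb,
        Complex.cpow_add _ _ hn0, ← div_eq_mul_inv, div_div, mul_comm ((n : ℂ) ^ w)]
  have h1 : ∀ y : ℂ, LSeries b y = LSeries a (y + w) := fun y => tsum_congr (h0 y)
  have h2 : LSeries.abscissaOfAbsConv b < ⊤ := by
    refine lt_of_le_of_lt (LSeries.abscissaOfAbsConv_le_of_forall_lt_LSeriesSummable (x := 1) ?_)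
      (EReal.coe_lt_top 1)
    intro y hy
    have h3 := ha ((y : ℂ) + w) (by simpa [hw] using hy)
    exact h3.congr fun n => (h0 y n).symm
  have h3 := LSeries.tendsto_atTop h2
  have h4 : b 1 = a 1 := by
    rw [hb]
    simp
  rw [h4] at h3
  refine h3.congr fun y => ?_
  rw [c4f_ds0, h1]

/-- the 3-4-1 inequality for the coefficients -/
theorem c4f_coef {z : ℂ} (hz : ‖z‖ ≤ 1) : 0 ≤ (3 + 4 * z + z ^ 2).re := by
  have h1 : (3 + 4 * z + z ^ 2).re = 3 + 4 * z.re + (z.re ^ 2 - z.im ^ 2) := by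
    rw [sq]
    simp [Complex.add_re, Complex.mul_re]
    ring
  have h2 : z.re ^ 2 + z.im ^ 2 ≤ 1 := by
    have h3 : z.re ^ 2 + z.im ^ 2 = ‖z‖ ^ 2 := by
      rw [Complex.sq_norm, Complex.normSq_apply]
      ring
    rw [h3]
    exact pow_le_one₀ (norm_nonneg z) hz
  rw [h1]
  nlinarith [sq_nonneg (1 + z.re)]

theorem c4f_cv_one (n : ℕ) : cv (1 : DirichletCharacter ℂ 1) n = 1 := by
  unfold cv
  exact MulChar.one_apply (isUnit_of_subsingleton _)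

theorem c4f_ac_one (F : Type) [Field F] [NumberField F] :
    ac F (1 : DirichletCharacter ℂ 1) = fun n => (aF F n : ℂ) := by
  funext n
  unfold ac
  rw [c4f_cv_one, mul_one]

theorem c4f_aF_one (F : Type) [Field F] [NumberField F] : aF F 1 = 1 := by
  unfold aF
  have h1 : {I : Ideal (𝓞 F) | Ideal.absNorm I = 1} = {⊤} := by
    ext I
    rw [Set.mem_ofPred_eq, Set.mem_singleton_iff, Ideal.absNorm_eq_one_iff]
  rw [h1, Set.ncard_singleton, Nat.cast_one]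

theorem c4f_ac_at_one (F : Type) [Field F] [NumberField F] {r : ℕ} (χ : DirichletCharacter ℂ r) :
    ac F χ 1 = 1 := by
  unfold ac
  rw [c4f_aF_one]
  unfold cv
  simp

/-- the terms of the 3-4-1 combination -/
theorem c4f_term (F : Type) [Field F] [NumberField F] (hg : ∀ n : ℕ, 0 ≤ gF F n) {r : ℕ}
    (χ : DirichletCharacter ℂ r) (w : ℂ) (hw : w.re = 0) (x : ℝ) (n : ℕ) :
    0 ≤ (3 * LSeries.term (fun n => (ArithmeticFunction.vonMangoldt n : ℂ) *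
          gc F (1 : DirichletCharacter ℂ 1) n * ((Real.log n ^ 0 : ℝ) : ℂ)) ((x : ℂ) + 0) n +
      4 * LSeries.term (fun n => (ArithmeticFunction.vonMangoldt n : ℂ) *
          gc F χ n * ((Real.log n ^ 0 : ℝ) : ℂ)) ((x : ℂ) + w) n +
      LSeries.term (fun n => (ArithmeticFunction.vonMangoldt n : ℂ) *
          gc F (χ ^ 2) n * ((Real.log n ^ 0 : ℝ) : ℂ)) ((x : ℂ) + (w + w)) n).re := by
  rcases Nat.eq_zero_or_pos n with rfl | hn
  · rw [LSeries.term_zero, LSeries.term_zero, LSeries.term_zero]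
    simp
  · have hn0 : (n : ℂ) ≠ 0 := by exact_mod_cast hn.ne'
    obtain ⟨z, hz⟩ : ∃ z : ℂ, z = χ (n : ZMod r) * ((n : ℂ) ^ w)⁻¹ := ⟨_, rfl⟩
    have hz1 : ‖z‖ ≤ 1 := by
      rw [hz, norm_mul, norm_inv, Complex.norm_natCast_cpow_of_pos hn, hw, Real.rpow_zero, inv_one,
        mul_one]
      exact DirichletCharacter.norm_le_one χ _
    obtain ⟨m, hm⟩ : ∃ m : ℝ, m = ArithmeticFunction.vonMangoldt n * gF F n * (n : ℝ) ^ (-x) :=
      ⟨_, rfl⟩
    have hm0 : 0 ≤ m := by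
      rw [hm]
      exact mul_nonneg (mul_nonneg ArithmeticFunction.vonMangoldt_nonneg (hg n))
        (Real.rpow_nonneg (Nat.cast_nonneg n) _)
    have hmx : (m : ℂ) = (ArithmeticFunction.vonMangoldt n : ℂ) * (gF F n : ℂ) *
        ((n : ℂ) ^ (x : ℂ))⁻¹ := by
      rw [hm, Complex.ofReal_mul, Complex.ofReal_mul, Complex.ofReal_cpow (Nat.cast_nonneg n),
        Complex.ofReal_neg, Complex.cpow_neg, Complex.ofReal_natCast]
    have e0 : LSeries.term (fun n => (ArithmeticFunction.vonMangoldt n : ℂ) *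
          gc F (1 : DirichletCharacter ℂ 1) n * ((Real.log n ^ 0 : ℝ) : ℂ)) ((x : ℂ) + 0) n =
        (m : ℂ) := by
      rw [LSeries.term_of_ne_zero hn.ne', hmx]
      unfold gc
      rw [c4f_cv_one, add_zero, pow_zero, Complex.ofReal_one, mul_one, mul_one, div_eq_mul_inv]
    have e1 : LSeries.term (fun n => (ArithmeticFunction.vonMangoldt n : ℂ) *
          gc F χ n * ((Real.log n ^ 0 : ℝ) : ℂ)) ((x : ℂ) + w) n = (m : ℂ) * z := by
      rw [LSeries.term_of_ne_zero hn.ne', hmx, hz]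
      unfold gc cv
      rw [pow_zero, Complex.ofReal_one, mul_one, Complex.cpow_add _ _ hn0, div_eq_mul_inv, mul_inv]
      ring
    have e2 : LSeries.term (fun n => (ArithmeticFunction.vonMangoldt n : ℂ) *
          gc F (χ ^ 2) n * ((Real.log n ^ 0 : ℝ) : ℂ)) ((x : ℂ) + (w + w)) n =
        (m : ℂ) * z ^ 2 := by
      rw [LSeries.term_of_ne_zero hn.ne', hmx, hz]
      unfold gc cv
      rw [pow_zero, Complex.ofReal_one, mul_one, Complex.cpow_add _ _ hn0,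
        Complex.cpow_add _ _ hn0, div_eq_mul_inv, mul_inv, mul_inv,
        MulChar.pow_apply' χ two_ne_zero]
      ring
    rw [e0, e1, e2]
    have h1 : 3 * (m : ℂ) + 4 * ((m : ℂ) * z) + (m : ℂ) * z ^ 2 = (m : ℂ) * (3 + 4 * z + z ^ 2) := by
      ring
    rw [h1, Complex.re_ofReal_mul]
    exact mul_nonneg hm0 (c4f_coef hz1)

/-- the 3-4-1 product -/
theorem c4f_prod (hCFF : T_CFF) (F : Type) [Field F] [NumberField F] {r : ℕ} (hr : 1 ≤ r)
    (χ : DirichletCharacter ℂ r) (w : ℂ) (hw : w.re = 0) {x : ℝ} (hx : 1 < x) :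
    1 ≤ ‖DS (fun n => (aF F n : ℂ)) 0 ((x : ℂ) + 0)‖ ^ 3 * ‖DS (ac F χ) 0 ((x : ℂ) + w)‖ ^ 4 *
      ‖DS (ac F (χ ^ 2)) 0 ((x : ℂ) + (w + w))‖ := by
  obtain ⟨hg, -, hC⟩ := hCFF F
  have hsum : ∀ (q : ℕ) (ψ : DirichletCharacter ℂ q), 1 ≤ q → ∀ s : ℂ, 1 < s.re →
      LSeriesSummable (ac F ψ) s := by
    intro q ψ hq s hs
    have h1 := ((hC q ψ s hq hs).1 0).1
    have h2 : (fun n => ac F ψ n * ((Real.log n ^ 0 : ℝ) : ℂ)) = ac F ψ := by
      funext n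
      rw [pow_zero, Complex.ofReal_one, mul_one]
    rwa [h2] at h1
  have hre : ∀ (v : ℂ) (y : ℝ), v.re = 0 → 1 < y → 1 < ((y : ℂ) + v).re := by
    intro v y hv hy
    rw [Complex.add_re, Complex.ofReal_re, hv, add_zero]
    exact hy
  have hww : (w + w).re = 0 := by
    rw [Complex.add_re, hw, add_zero]
  have h00 : (0 : ℂ).re = 0 := Complex.zero_re
  rw [← c4f_ac_one F]
  have hd : ∀ (q : ℕ) (ψ : DirichletCharacter ℂ q) (v : ℂ), 1 ≤ q → v.re = 0 → ∀ y : ℝ, 1 < y →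
      HasDerivAt (fun y : ℝ => DS (ac F ψ) 0 ((y : ℂ) + v))
        (-(DS (ac F ψ) 0 ((y : ℂ) + v) * DS (fun n => (ArithmeticFunction.vonMangoldt n : ℂ) *
          gc F ψ n) 0 ((y : ℂ) + v))) y := by
    intro q ψ v hq hv y hy
    have h1 := c4f_path (hsum q ψ hq) v hv hy
    rw [(hC q ψ ((y : ℂ) + v) hq (hre v y hv hy)).2.2] at h1
    exact h1
  have hl : ∀ (q : ℕ) (ψ : DirichletCharacter ℂ q) (v : ℂ), 1 ≤ q → v.re = 0 →
      Tendsto (fun y : ℝ => DS (ac F ψ) 0 ((y : ℂ) + v)) atTop (𝓝 1) := by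
    intro q ψ v hq hv
    have h1 := c4f_lim (hsum q ψ hq) v hv
    rwa [c4f_ac_at_one] at h1
  obtain ⟨L0, hL0⟩ : ∃ L : ℝ → ℂ, L = fun y : ℝ => DS (ac F (1 : DirichletCharacter ℂ 1)) 0
    ((y : ℂ) + 0) := ⟨_, rfl⟩
  obtain ⟨L1, hL1⟩ : ∃ L : ℝ → ℂ, L = fun y : ℝ => DS (ac F χ) 0 ((y : ℂ) + w) := ⟨_, rfl⟩
  obtain ⟨L2, hL2⟩ : ∃ L : ℝ → ℂ, L = fun y : ℝ => DS (ac F (χ ^ 2)) 0
    ((y : ℂ) + (w + w)) := ⟨_, rfl⟩
  obtain ⟨G0, hG0⟩ : ∃ L : ℝ → ℂ, L = fun y : ℝ => DS (fun n =>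
    (ArithmeticFunction.vonMangoldt n : ℂ) * gc F (1 : DirichletCharacter ℂ 1) n) 0
    ((y : ℂ) + 0) := ⟨_, rfl⟩
  obtain ⟨G1, hG1⟩ : ∃ L : ℝ → ℂ, L = fun y : ℝ => DS (fun n =>
    (ArithmeticFunction.vonMangoldt n : ℂ) * gc F χ n) 0 ((y : ℂ) + w) := ⟨_, rfl⟩
  obtain ⟨G2, hG2⟩ : ∃ L : ℝ → ℂ, L = fun y : ℝ => DS (fun n =>
    (ArithmeticFunction.vonMangoldt n : ℂ) * gc F (χ ^ 2) n) 0 ((y : ℂ) + (w + w)) := ⟨_, rfl⟩
  have d0 : ∀ y : ℝ, 1 < y → HasDerivAt L0 (-(L0 y * G0 y)) y := by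
    intro y hy
    have h1 := hd 1 1 0 le_rfl h00 y hy
    rw [hL0, hG0]
    exact h1
  have d1 : ∀ y : ℝ, 1 < y → HasDerivAt L1 (-(L1 y * G1 y)) y := by
    intro y hy
    have h1 := hd r χ w hr hw y hy
    rw [hL1, hG1]
    exact h1
  have d2 : ∀ y : ℝ, 1 < y → HasDerivAt L2 (-(L2 y * G2 y)) y := by
    intro y hy
    have h1 := hd r (χ ^ 2) (w + w) hr hww y hy
    rw [hL2, hG2]
    exact h1
  have t0 : Tendsto L0 atTop (𝓝 1) := by
    rw [hL0]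
    exact hl 1 1 0 le_rfl h00
  have t1 : Tendsto L1 atTop (𝓝 1) := by
    rw [hL1]
    exact hl r χ w hr hw
  have t2 : Tendsto L2 atTop (𝓝 1) := by
    rw [hL2]
    exact hl r (χ ^ 2) (w + w) hr hww
  have key := c4f_trick (fun y => L0 y ^ 3 * L1 y ^ 4 * L2 y)
    (fun y => 3 * G0 y + 4 * G1 y + G2 y) ?_ ?_ ?_ hx
  · have h1 : ‖L0 x ^ 3 * L1 x ^ 4 * L2 x‖ = ‖L0 x‖ ^ 3 * ‖L1 x‖ ^ 4 * ‖L2 x‖ := by
      rw [norm_mul, norm_mul, norm_pow, norm_pow]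
    have h2 : (1 : ℝ) ≤ ‖L0 x ^ 3 * L1 x ^ 4 * L2 x‖ := key
    rw [h1, hL0, hL1, hL2] at h2
    exact h2
  · intro y hy
    have h1 := (((d0 y hy).pow 3).mul ((d1 y hy).pow 4)).mul (d2 y hy)
    refine HasDerivAt.congr_deriv h1 ?_
    simp only [Pi.mul_apply, Pi.pow_apply]
    push_cast
    ring
  · intro y hy
    have s0 := ((hC 1 1 ((y : ℂ) + 0) le_rfl (hre 0 y h00 hy)).1 0).2
    have s1 := ((hC r χ ((y : ℂ) + w) hr (hre w y hw hy)).1 0).2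
    have s2 := ((hC r (χ ^ 2) ((y : ℂ) + (w + w)) hr (hre (w + w) y hww hy)).1 0).2
    have a0 := s0.hasSum
    have a1 := s1.hasSum
    have a2 := s2.hasSum
    have a3 := ((a0.mul_left 3).add (a1.mul_left 4)).add a2
    have a4 := Complex.hasSum_re a3
    have a5 := a4.nonneg fun n => c4f_term F (fun n => (hg n).1) χ w hw y n
    rw [hG0, hG1, hG2]
    exact a5
  · have h1 := ((t0.pow 3).mul (t1.pow 4)).mul t2
    rw [one_pow, one_pow, one_mul, one_mul] at h1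
    exact h1

/-- the real inequality behind the choice of the constants -/
theorem c4f_step {A0 A1 A2 e η l₁ l₂ K0 K2 D : ℝ} (he : 0 < e) (hη : 0 < η) (hl1 : 1 ≤ l₁)
    (hl2 : 1 ≤ l₂) (hK0 : 1 ≤ K0) (hK2 : 1 ≤ K2) (hD : 1 ≤ D) (hA0 : 0 ≤ A0) (hA1 : 0 ≤ A1)
    (hA2 : 0 ≤ A2) (h0 : A0 ≤ K0 / e) (h2 : A2 ≤ K2 * l₂ / η) (h : 1 ≤ A0 ^ 3 * A1 ^ 4 * A2)
    (hc : 16 * K0 ^ 3 * K2 * D ^ 4 * (e * (l₁ ^ 4 * l₂)) ≤ η) : 2 * D * e * l₁ ≤ A1 := by
  by_contra hcon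
  rw [not_le] at hcon
  have hl10 : 0 < l₁ := by linarith
  have hl20 : 0 < l₂ := by linarith
  have hB : 0 < 2 * D * e * l₁ := by positivity
  have h4 : A1 ^ 4 < (2 * D * e * l₁) ^ 4 := pow_lt_pow_left₀ hcon hA1 (by norm_num)
  have h3 : A0 ^ 3 ≤ (K0 / e) ^ 3 := pow_le_pow_left₀ hA0 h0 3
  have hP : 0 < (K0 / e) ^ 3 := by positivity
  have hQ : 0 < K2 * l₂ / η := by positivity
  have h5 : A0 ^ 3 * A1 ^ 4 * A2 ≤ (K0 / e) ^ 3 * A1 ^ 4 * (K2 * l₂ / η) := by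
    have h6 : A0 ^ 3 * A1 ^ 4 ≤ (K0 / e) ^ 3 * A1 ^ 4 :=
      mul_le_mul_of_nonneg_right h3 (by positivity)
    exact mul_le_mul h6 h2 hA2 (by positivity)
  have h7 : (K0 / e) ^ 3 * A1 ^ 4 * (K2 * l₂ / η) <
      (K0 / e) ^ 3 * (2 * D * e * l₁) ^ 4 * (K2 * l₂ / η) := by
    have h8 : (K0 / e) ^ 3 * A1 ^ 4 < (K0 / e) ^ 3 * (2 * D * e * l₁) ^ 4 :=
      mul_lt_mul_of_pos_left h4 hP
    exact mul_lt_mul_of_pos_right h8 hQ
  have h9 : (K0 / e) ^ 3 * (2 * D * e * l₁) ^ 4 * (K2 * l₂ / η) =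
      16 * K0 ^ 3 * K2 * D ^ 4 * (e * (l₁ ^ 4 * l₂)) / η := by
    field_simp
    ring
  have h10 : 16 * K0 ^ 3 * K2 * D ^ 4 * (e * (l₁ ^ 4 * l₂)) / η ≤ 1 := (div_le_one hη).2 hc
  linarith

theorem pf_C4F (hCFF : T_CFF) (hTLF : T_TLF) (hUBF : T_UBF) (hDVF : T_DVF) : T_C4F := by
  intro F _ _ _
  obtain ⟨c0, hc0, hTL⟩ := hTLF F
  obtain ⟨CU, E2, hCU, hUB⟩ := hUBF F
  obtain ⟨CD, E1, hCD, hDV⟩ := hDVF F
  obtain ⟨K0, hK0⟩ : ∃ K : ℝ, K = 1 + 1 / c0 := ⟨_, rfl⟩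
  obtain ⟨K2, hK2⟩ : ∃ K : ℝ, K = 1 + 2 * 2 ^ E2 * CU := ⟨_, rfl⟩
  obtain ⟨D, hD⟩ : ∃ K : ℝ, K = 1 + CD := ⟨_, rfl⟩
  have hK0' : 1 ≤ K0 := by
    have : 0 < 1 / c0 := by positivity
    linarith
  have hK2' : 1 ≤ K2 := by
    have : 0 < 2 * 2 ^ E2 * CU := by positivity
    linarith
  have hD' : 1 ≤ D := by linarith
  obtain ⟨M, hM⟩ : ∃ K : ℝ, K = 16 * K0 ^ 3 * K2 * D ^ 4 := ⟨_, rfl⟩
  have hM1 : 1 ≤ M := by
    have h1 : 1 ≤ K0 ^ 3 := one_le_pow₀ hK0'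
    have h2 : 1 ≤ D ^ 4 := one_le_pow₀ hD'
    have h3 : 1 ≤ K0 ^ 3 * K2 := one_le_mul_of_one_le_of_one_le h1 hK2'
    have h4 : 1 ≤ K0 ^ 3 * K2 * D ^ 4 := one_le_mul_of_one_le_of_one_le h3 h2
    have h5 : M = 16 * (K0 ^ 3 * K2 * D ^ 4) := by rw [hM]; ring
    linarith
  have hM0 : 0 < M := by linarith
  have hmin : 0 < min c0 1 := lt_min hc0 one_pos
  refine ⟨min c0 1 / M, 4 * E1 + E2, by positivity, ?_⟩
  intro r χ η s hr hok hprim hη hη1 hs1 hs2 hcase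
  have hr1 : 1 ≤ r := by omega
  obtain ⟨t, ht⟩ : ∃ t : ℝ, t = s.im := ⟨_, rfl⟩
  rw [← ht] at hcase ⊢
  obtain ⟨l, hl⟩ : ∃ l : ℝ, l = Real.log (r * (|t| + 3)) := ⟨_, rfl⟩
  rw [← hl]
  have hq1 : (1 : ℝ) ≤ r := by exact_mod_cast hr1
  have ht0 : 0 ≤ |t| := abs_nonneg t
  have hl3 : Real.log 3 ≤ l := by
    rw [hl]
    apply Real.log_le_log (by norm_num)
    have h1 : (1 : ℝ) * 3 ≤ r * (|t| + 3) := mul_le_mul hq1 (by linarith) (by norm_num) (by linarith)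
    linarith
  have hlog3 : (1 : ℝ) ≤ Real.log 3 := by
    rw [Real.le_log_iff_exp_le (by norm_num)]
    have := Real.exp_one_lt_d9
    linarith
  have hl1 : 1 ≤ l := hlog3.trans hl3
  have hl0 : 0 < l := by linarith
  obtain ⟨l₁, hl₁⟩ : ∃ a : ℝ, a = l ^ E1 := ⟨_, rfl⟩
  obtain ⟨l₂, hl₂⟩ : ∃ a : ℝ, a = l ^ E2 := ⟨_, rfl⟩
  have hl₁1 : 1 ≤ l₁ := by rw [hl₁]; exact one_le_pow₀ hl1
  have hl₂1 : 1 ≤ l₂ := by rw [hl₂]; exact one_le_pow₀ hl1
  have hl₁0 : 0 < l₁ := by linarith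
  have hl₂0 : 0 < l₂ := by linarith
  have hlE : l ^ (4 * E1 + E2) = l₁ ^ 4 * l₂ := by
    rw [hl₁, hl₂, pow_add, mul_comm 4 E1, pow_mul]
  rw [hlE]
  have hL1 : 1 ≤ l₁ ^ 4 * l₂ := one_le_mul_of_one_le_of_one_le (one_le_pow₀ hl₁1) hl₂1
  have hL0 : 0 < l₁ ^ 4 * l₂ := by linarith
  obtain ⟨e, he⟩ : ∃ e : ℝ, e = η / (M * (l₁ ^ 4 * l₂)) := ⟨_, rfl⟩
  have he0 : 0 < e := by rw [he]; positivity
  have he1 : e ≤ 1 := by
    rw [he, div_le_one (by positivity)]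
    have h1 : 1 ≤ M * (l₁ ^ 4 * l₂) := one_le_mul_of_one_le_of_one_le hM1 hL1
    linarith
  have hgoal : min c0 1 / M * η / (l₁ ^ 4 * l₂) = min c0 1 * e := by
    rw [he]
    field_simp
  rw [hgoal]
  by_cases hcs : 1 + e ≤ s.re
  · have h1 := (hTL r χ s hr1 hs1 (by linarith)).1
    refine le_trans ?_ h1
    exact mul_le_mul (min_le_left _ _) (by linarith) he0.le hc0.le
  rw [not_le] at hcs
  obtain ⟨w, hw⟩ : ∃ w : ℂ, w = (t : ℂ) * Complex.I := ⟨_, rfl⟩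
  have hwre : w.re = 0 := by rw [hw]; simp
  have hwim : w.im = t := by rw [hw]; simp
  have hprod := c4f_prod hCFF F hr1 χ w hwre (x := 1 + e) (by linarith)
  have h1re : ∀ v : ℂ, v.re = 0 → (((1 + e : ℝ) : ℂ) + v).re = 1 + e := by
    intro v hv
    rw [Complex.add_re, Complex.ofReal_re, hv, add_zero]
  have h1im : ∀ v : ℂ, (((1 + e : ℝ) : ℂ) + v).im = v.im := by
    intro v
    rw [Complex.add_im, Complex.ofReal_im, zero_add]
  have hwwre : (w + w).re = 0 := by rw [Complex.add_re, hwre, add_zero]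
  have hwwim : (w + w).im = 2 * t := by rw [Complex.add_im, hwim]; ring
  -- the difference
  have hdiff : ‖DS (ac F χ) 0 (((1 + e : ℝ) : ℂ) + w) - DS (ac F χ) 0 s‖ ≤ CD * l₁ * e := by
    have h1 := hDV r χ |t| (((1 + e : ℝ) : ℂ) + w) s hr hok hprim ht0
      (by rw [h1re w hwre]; linarith) (by rw [h1re w hwre]; linarith) hs1 (by linarith)
      (by rw [h1im, hwim]) (by rw [ht])
    rw [← hl, ← hl₁] at h1
    refine h1.trans ?_
    have h2 : ‖(((1 + e : ℝ) : ℂ) + w) - s‖ ≤ e := by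
      have h3 : (((1 + e : ℝ) : ℂ) + w) - s = ((1 + e - s.re : ℝ) : ℂ) := by
        apply Complex.ext
        · rw [Complex.sub_re, h1re w hwre, Complex.ofReal_re]
        · rw [Complex.sub_im, h1im, hwim, Complex.ofReal_im, ht, sub_self]
      rw [h3, Complex.norm_real, Real.norm_eq_abs, abs_of_pos (by linarith)]
      linarith
    exact mul_le_mul_of_nonneg_left h2 (by positivity)
  -- the three factors
  have hA0 : ‖DS (fun n => (aF F n : ℂ)) 0 (((1 + e : ℝ) : ℂ) + 0)‖ ≤ K0 / e := by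
    have h1 := (hTL r χ (((1 + e : ℝ) : ℂ) + 0) hr1 (by rw [h1re 0 Complex.zero_re]; linarith)
      (by rw [h1re 0 Complex.zero_re]; linarith)).2
    rw [h1re 0 Complex.zero_re, add_sub_cancel_left] at h1
    refine h1.trans ?_
    have h2 : 1 / (c0 * e) = 1 / c0 / e := by
      field_simp
    rw [h2]
    apply div_le_div_of_nonneg_right _ he0.le
    rw [hK0]
    linarith
  have hlog2 : Real.log (r * (|2 * t| + 3)) ≤ 2 * l := by
    have h1 : Real.log (r * (|2 * t| + 3)) ≤ Real.log ((r * (|t| + 3)) ^ 2) := by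
      apply Real.log_le_log (by positivity)
      rw [abs_mul, abs_of_pos (by norm_num : (0 : ℝ) < 2)]
      have h2 : (r : ℝ) * (2 * |t| + 3) ≤ r * (|t| + 3) ^ 2 := by
        apply mul_le_mul_of_nonneg_left _ (by positivity)
        have h4 : (|t| + 3) ^ 2 = |t| ^ 2 + 6 * |t| + 9 := by ring
        have h5 : 0 ≤ |t| ^ 2 := by positivity
        linarith
      have h3 : (r : ℝ) * (|t| + 3) ^ 2 ≤ r ^ 2 * (|t| + 3) ^ 2 := by
        apply mul_le_mul_of_nonneg_right _ (by positivity)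
        exact le_self_pow₀ hq1 two_ne_zero
      calc _ ≤ r * (|t| + 3) ^ 2 := h2
        _ ≤ r ^ 2 * (|t| + 3) ^ 2 := h3
        _ = (r * (|t| + 3)) ^ 2 := by ring
    rw [Real.log_pow, ← hl] at h1
    exact_mod_cast h1
  have hlog0 : 0 ≤ Real.log (r * (|2 * t| + 3)) := by
    apply Real.log_nonneg
    have h1 : (1 : ℝ) * 1 ≤ r * (|2 * t| + 3) := by
      apply mul_le_mul hq1 _ (by norm_num) (by linarith)
      have := abs_nonneg (2 * t)
      linarith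
    linarith
  have hlogE : Real.log (r * (|2 * t| + 3)) ^ E2 ≤ 2 ^ E2 * l₂ := by
    rw [hl₂, ← mul_pow]
    exact pow_le_pow_left₀ hlog0 hlog2 E2
  have hlogE0 : 0 ≤ Real.log (r * (|2 * t| + 3)) ^ E2 := pow_nonneg hlog0 E2
  have h1η : 1 ≤ 1 / η := by
    rw [le_div_iff₀ hη]
    linarith
  have hA2 : ‖DS (ac F (χ ^ 2)) 0 (((1 + e : ℝ) : ℂ) + (w + w))‖ ≤ K2 * l₂ / η := by
    have hfin : 2 / η * (CU * (2 ^ E2 * l₂)) ≤ K2 * l₂ / η := by
      have h1 : K2 * l₂ / η = l₂ / η + 2 / η * (CU * (2 ^ E2 * l₂)) := by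
        rw [hK2]; ring
      have h2 : 0 < l₂ / η := by positivity
      linarith
    have h3 := hUB r (χ ^ 2) (((1 + e : ℝ) : ℂ) + (w + w)) hr1 hok
      (by rw [h1re _ hwwre]; linarith) (by rw [h1re _ hwwre]; linarith)
    rw [h1im, hwwim] at h3
    by_cases h1 : χ ^ 2 = 1
    · have h2 : η ≤ |t| := by
        rcases hcase with h | h
        · exact absurd h1 h
        · exact h
      have h4 := h3.2 h1
      refine (h4.trans ?_).trans hfin
      have h5 : 1 / ‖(((1 + e : ℝ) : ℂ) + (w + w)) - 1‖ ≤ 1 / η := by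
        apply one_div_le_one_div_of_le hη
        have h6 := Complex.abs_im_le_norm ((((1 + e : ℝ) : ℂ) + (w + w)) - 1)
        rw [Complex.sub_im, h1im, hwwim, Complex.one_im, sub_zero, abs_mul,
          abs_of_pos (by norm_num : (0 : ℝ) < 2)] at h6
        linarith
      have h6 : 1 + 1 / ‖(((1 + e : ℝ) : ℂ) + (w + w)) - 1‖ ≤ 2 / η := by
        have h7 : 2 / η = 1 / η + 1 / η := by ring
        linarith
      have h7 : CU * (1 + 1 / ‖(((1 + e : ℝ) : ℂ) + (w + w)) - 1‖) ≤ CU * (2 / η) :=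
        mul_le_mul_of_nonneg_left h6 hCU.le
      have h8 : 2 / η * (CU * (2 ^ E2 * l₂)) = CU * (2 / η) * (2 ^ E2 * l₂) := by ring
      rw [h8]
      exact mul_le_mul h7 hlogE hlogE0 (by positivity)
    · have h4 := h3.1 h1
      refine (h4.trans ?_).trans hfin
      have h5 : CU * Real.log (r * (|2 * t| + 3)) ^ E2 ≤ CU * (2 ^ E2 * l₂) :=
        mul_le_mul_of_nonneg_left hlogE hCU.le
      refine h5.trans ?_
      apply le_mul_of_one_le_left (by positivity)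
      have h7 : 2 / η = 1 / η + 1 / η := by ring
      linarith
  have hcc : 16 * K0 ^ 3 * K2 * D ^ 4 * (e * (l₁ ^ 4 * l₂)) ≤ η := by
    rw [← hM, he]
    apply le_of_eq
    field_simp
  have hmain := c4f_step he0 hη hl₁1 hl₂1 hK0' hK2' hD' (norm_nonneg _) (norm_nonneg _)
    (norm_nonneg _) hA0 hA2 hprod hcc
  have h1 : ‖DS (ac F χ) 0 (((1 + e : ℝ) : ℂ) + w)‖ ≤
      ‖DS (ac F χ) 0 (((1 + e : ℝ) : ℂ) + w) - DS (ac F χ) 0 s‖ + ‖DS (ac F χ) 0 s‖ := by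
    have h2 := norm_add_le (DS (ac F χ) 0 (((1 + e : ℝ) : ℂ) + w) - DS (ac F χ) 0 s)
      (DS (ac F χ) 0 s)
    rwa [sub_add_cancel] at h2
  have h3 : CD * l₁ * e ≤ D * (e * l₁) := by
    have h4 : 0 ≤ e * l₁ := by positivity
    have h8 : D * (e * l₁) = e * l₁ + CD * l₁ * e := by rw [hD]; ring
    linarith
  have h5 : e ≤ D * (e * l₁) := by
    have h6 : e * 1 ≤ e * l₁ := mul_le_mul_of_nonneg_left hl₁1 he0.le
    have h8 : e * l₁ ≤ D * (e * l₁) := le_mul_of_one_le_left (by positivity) hD'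
    linarith
  have h7 : 2 * D * e * l₁ = 2 * (D * (e * l₁)) := by ring
  rw [h7] at hmain
  have h8 : min c0 1 * e ≤ e := mul_le_of_le_one_left he0.le (min_le_right _ _)
  linarith

end Pool.Agent.H11.SM
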