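import Pool.Agent.H20.SM.TZ
import Pool.Agent.H65.CRG.All

/-!
DIz: the diagonal term (board sm_modules, MP_347b49_nt). The model is `Pool/Agent/H78/CRG/DI.lean`.
-/

set_option autoImplicit false

open NumberField NumberField.InfinitePlace Complex Filter Topology MeasureTheory

namespace Pool.Agent.H11.SM

open Pool.Agent.H20.SM
open Pool.Agent.H28.RC Pool.Agent.H25.HK Pool.Agent.H37.CV Pool.Agent.H65.CRZ Pool.Agent.H65.CRG
open Pool.Agent.H94.CV.F1 (nm_top pf_top one_le_nS mem_DM xw_le)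
open Pool.Agent.H21.CRZ (cpw term_eq Yv Yv_pos log_Yv gg0 Wc Ys nS_pos' Ys_pos Rr Sd_eq Wc_le
  Ys_bd sum_W re1 im1 re2 im2 U_le gam1 gam2)
open Pool.Agent.H78.CRG (Dn_eq Rr_cancel Xn_le ident)

section

variable {K : Type} [Field K] [NumberField K]

/-- one side of the diagonal term -/
theorem diz_side (hSA : Pool.Agent.H65.CRG.T_SA) (E : ℂ → ℂ) (hE : IsE K E) :
    ∃ C B : ℝ, 0 < C ∧ 0 ≤ B ∧ ∀ (A M κ : ℝ) (α β : ℂ) (u : ℝ), 0 < A →
      1 ≤ M → ‖α‖ ≤ 1 / 16 → ‖β‖ ≤ 1 / 16 → α + β ≠ 0 → ‖α‖ * Real.log M ≤ κ →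
      ‖β‖ * Real.log M ≤ κ →
      ‖Dn (K := K) ⊤ (A ^ 2) M (1 / 2 + α + u * I) (1 / 2 + β - u * I) (cu K M u) (cu K M (-u))
          ⊤ ⊤ -
        1 / (α + β) * (E (1 + (α + β)) * Sd K M α β -
          (rho K : ℂ) * Gq (1 / 2 + α + u * I) (1 / 2 + β - u * I)
            (-((α + β) / 2)) ^ nrComplexPlaces K *
            cexp ((α + β) ^ 2 / 2) * Rr K M A α β)‖ ≤
      C * (1 + |u|) ^ B * Real.exp (4 * κ) * GS np (PM K M) M ^ 3 *
        ((A ^ 2 / M ^ 2) ^ (-(1 / 8) : ℝ) / ‖α + β‖) := by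
  obtain ⟨C₁, B₁, hC₁, hB₁, h1⟩ := hSA K E hE
  refine ⟨C₁ * 3 ^ B₁, B₁, by positivity, hB₁, ?_⟩
  intro A M κ α β u hA hM hα hβ hω hακ hβκ
  obtain ⟨s₁, hs₁⟩ : ∃ s₁, s₁ = 1 / 2 + α + u * I := ⟨_, rfl⟩
  obtain ⟨s₂, hs₂⟩ : ∃ s₂, s₂ = 1 / 2 + β - u * I := ⟨_, rfl⟩
  have hr1 : |s₁.re - 1 / 2| ≤ 1 / 16 := by
    rw [hs₁, re1, add_sub_cancel_left]
    exact (Complex.abs_re_le_norm α).trans hα
  have hr2 : |s₂.re - 1 / 2| ≤ 1 / 16 := by
    rw [hs₂, re2, add_sub_cancel_left]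
    exact (Complex.abs_re_le_norm β).trans hβ
  have hsum : s₁ + s₂ = 1 + (α + β) := by
    rw [hs₁, hs₂]
    ring
  have hω8 : ‖α + β‖ ≤ 1 / 8 := (norm_add_le _ _).trans (by linarith)
  have hU : 1 + |s₁.im| + |s₂.im| ≤ 3 * (1 + |u|) := by
    rw [hs₁, hs₂]
    exact U_le hα hβ u
  have hU0 : 0 ≤ 1 + |s₁.im| + |s₂.im| := by positivity
  have hn : 0 < ‖α + β‖ := norm_pos_iff.2 hω
  obtain ⟨W, hW⟩ : ∃ W, W = (1 + |u|) ^ B₁ := ⟨_, rfl⟩
  have hW0 : 0 < W := by rw [hW]; positivity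
  have hU1 : (1 + |s₁.im| + |s₂.im|) ^ B₁ ≤ 3 ^ B₁ * W := by
    rw [hW, ← Real.mul_rpow (by norm_num) (by positivity)]
    exact Real.rpow_le_rpow hU0 hU hB₁
  rw [← hW]
  obtain ⟨a, ha⟩ : ∃ a, a = (A ^ 2 / M ^ 2) ^ (-(1 / 8) : ℝ) / ‖α + β‖ := ⟨_, rfl⟩
  have hM0 : 0 < M := by linarith
  have ha0 : 0 ≤ a := by rw [ha]; positivity
  rw [← ha]
  -- one pair
  have hterm : ∀ S ∈ DM K M, ∀ T ∈ DM K M,
      ‖Sn (K := K) ⊤ s₁ s₂ (Ys A S T) - 1 / (α + β) * (E (1 + (α + β)) -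
        (rho K : ℂ) * Gq s₁ s₂ (-((α + β) / 2)) ^ nrComplexPlaces K * cexp ((α + β) ^ 2 / 2) *
          ((Ys A S T : ℝ) : ℂ) ^ (-((α + β) / 2)))‖ ≤
      C₁ * 3 ^ B₁ * W * a := by
    intro S hS T hT
    have hY := Ys_pos (K := K) hA S T
    obtain ⟨hY1, hY2⟩ := Ys_bd hA hM hS hT
    have k1 := h1 s₁ s₂ (α + β) (Ys A S T) hr1 hr2 hsum hω hω8 hY
    have k3 : (Ys A S T) ^ (-(1 / 8) : ℝ) / ‖α + β‖ ≤ a := by
      rw [ha]
      exact div_le_div_of_nonneg_right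
        (Real.rpow_le_rpow_of_nonpos (by positivity) hY1 (by norm_num)) hn.le
    refine k1.trans ?_
    rw [mul_div_assoc]
    calc C₁ * (1 + |s₁.im| + |s₂.im|) ^ B₁ * ((Ys A S T) ^ (-(1 / 8) : ℝ) / ‖α + β‖) ≤
        C₁ * (3 ^ B₁ * W) * a :=
          mul_le_mul (mul_le_mul_of_nonneg_left hU1 hC₁.le) k3 (by positivity) (by positivity)
      _ = C₁ * 3 ^ B₁ * W * a := by ring
  -- the sum
  have e1 : Dn (K := K) ⊤ (A ^ 2) M s₁ s₂ (cu K M u) (cu K M (-u)) ⊤ ⊤ -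
        1 / (α + β) * (E (1 + (α + β)) * Sd K M α β -
          (rho K : ℂ) * Gq s₁ s₂ (-((α + β) / 2)) ^ nrComplexPlaces K *
            cexp ((α + β) ^ 2 / 2) * Rr K M A α β) =
      ∑ S ∈ DM K M, ∑ T ∈ DM K M, Wc M α β S T *
        (Sn (K := K) ⊤ s₁ s₂ (Ys A S T) - 1 / (α + β) * (E (1 + (α + β)) -
        (rho K : ℂ) * Gq s₁ s₂ (-((α + β) / 2)) ^ nrComplexPlaces K * cexp ((α + β) ^ 2 / 2) *
          ((Ys A S T : ℝ) : ℂ) ^ (-((α + β) / 2)))) := by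
    have e2 : Dn (K := K) ⊤ (A ^ 2) M s₁ s₂ (cu K M u) (cu K M (-u)) ⊤ ⊤ =
        ∑ S ∈ DM K M, ∑ T ∈ DM K M, Wc M α β S T * Sn (K := K) ⊤ s₁ s₂ (Ys A S T) := by
      rw [hs₁, hs₂]
      exact Dn_eq _ _ _ _ _ _
    rw [e2, Sd_eq]
    unfold Rr
    have e3 : ∀ S T, Wc M α β S T * (Sn (K := K) ⊤ s₁ s₂ (Ys A S T) -
        1 / (α + β) * (E (1 + (α + β)) -
        (rho K : ℂ) * Gq s₁ s₂ (-((α + β) / 2)) ^ nrComplexPlaces K * cexp ((α + β) ^ 2 / 2) *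
          ((Ys A S T : ℝ) : ℂ) ^ (-((α + β) / 2)))) =
        Wc (K := K) M α β S T * Sn (K := K) ⊤ s₁ s₂ (Ys A S T) -
        (1 / (α + β) * E (1 + (α + β)) * Wc M α β S T -
          1 / (α + β) * ((rho K : ℂ) * Gq s₁ s₂ (-((α + β) / 2)) ^ nrComplexPlaces K *
            cexp ((α + β) ^ 2 / 2)) *
          (Wc M α β S T * ((Ys A S T : ℝ) : ℂ) ^ (-((α + β) / 2)))) := by
      intro S T
      ring
    simp only [e3, Finset.sum_sub_distrib, ← Finset.mul_sum]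
    ring
  rw [← hs₁, ← hs₂, e1]
  refine (norm_sum_le _ _).trans ((Finset.sum_le_sum fun S _ => norm_sum_le _ _).trans ?_)
  have hV0 : 0 ≤ C₁ * 3 ^ B₁ * W * a := by positivity
  classical
  calc ∑ S ∈ DM K M, ∑ T ∈ DM K M, ‖Wc M α β S T *
        (Sn (K := K) ⊤ s₁ s₂ (Ys A S T) - 1 / (α + β) * (E (1 + (α + β)) -
        (rho K : ℂ) * Gq s₁ s₂ (-((α + β) / 2)) ^ nrComplexPlaces K * cexp ((α + β) ^ 2 / 2) *
          ((Ys A S T : ℝ) : ℂ) ^ (-((α + β) / 2))))‖ ≤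
      ∑ S ∈ DM K M, ∑ T ∈ DM K M, (Real.exp (4 * κ) * (C₁ * 3 ^ B₁ * W * a)) *
          (nS np (S ∩ T) / (nS np S * nS np T)) := by
        refine Finset.sum_le_sum fun S hS => Finset.sum_le_sum fun T hT => ?_
        rw [norm_mul]
        have k1 := Wc_le hM hακ hβκ hS hT
        have k2 := hterm S hS T hT
        have k3 := mul_le_mul k1 k2 (norm_nonneg _) ((norm_nonneg _).trans k1)
        refine k3.trans (le_of_eq ?_)
        ring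
    _ = (Real.exp (4 * κ) * (C₁ * 3 ^ B₁ * W * a)) *
        ∑ S ∈ DM K M, ∑ T ∈ DM K M, (nS np (S ∩ T) / (nS np S * nS np T)) := by
        simp only [Finset.mul_sum]
    _ ≤ (Real.exp (4 * κ) * (C₁ * 3 ^ B₁ * W * a)) * GS np (PM K M) M ^ 3 := by
        refine mul_le_mul_of_nonneg_left ?_ (by positivity)
        exact sum_W (K := K) hM
    _ = _ := by ring

end

/-- the error terms tend to zero -/
theorem diz_small {ε₁ η Z : ℝ} (hε : 0 < ε₁) (hη : 0 < η) (hZ : 0 ≤ Z) : ∃ M₀ : ℝ, ∀ x : ℝ,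
    M₀ ≤ x → Z * ((1 + Real.log x) ^ 4 * x ^ (-(ε₁ / 2))) ≤ η := by
  have hδ : 0 < ε₁ / 16 := by positivity
  have h1 : Tendsto (fun x : ℝ => Z * ((1 + 1 / (ε₁ / 16)) ^ 4 * x ^ (-(ε₁ / 4)))) atTop
      (𝓝 (Z * ((1 + 1 / (ε₁ / 16)) ^ 4 * 0))) :=
    ((tendsto_rpow_neg_atTop (by positivity)).const_mul _).const_mul _
  rw [mul_zero, mul_zero] at h1
  obtain ⟨q₀, hq₀⟩ := eventually_atTop.1 (h1.eventually (gt_mem_nhds hη))
  refine ⟨max q₀ 1, fun q hq => ?_⟩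
  have hq1 : (1 : ℝ) ≤ q := (le_max_right _ _).trans hq
  have hq0 : (0 : ℝ) < q := by linarith
  refine le_trans ?_ (hq₀ q ((le_max_left _ _).trans hq)).le
  refine mul_le_mul_of_nonneg_left ?_ hZ
  have h2 : 1 + Real.log q ≤ (1 + 1 / (ε₁ / 16)) * q ^ (ε₁ / 16) := by
    have h3 := Real.log_le_rpow_div hq0.le hδ
    have h4 : 1 ≤ q ^ (ε₁ / 16) := Real.one_le_rpow hq1 hδ.le
    have e : (1 + 1 / (ε₁ / 16)) * q ^ (ε₁ / 16) = q ^ (ε₁ / 16) + q ^ (ε₁ / 16) / (ε₁ / 16) := by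
      ring
    linarith
  have h5 : 0 ≤ 1 + Real.log q := by linarith [Real.log_nonneg hq1]
  calc (1 + Real.log q) ^ 4 * q ^ (-(ε₁ / 2)) ≤
      ((1 + 1 / (ε₁ / 16)) * q ^ (ε₁ / 16)) ^ 4 * q ^ (-(ε₁ / 2)) := by gcongr
    _ = (1 + 1 / (ε₁ / 16)) ^ 4 * ((q ^ (ε₁ / 16)) ^ 4 * q ^ (-(ε₁ / 2))) := by
      rw [mul_pow]
      ring
    _ = (1 + 1 / (ε₁ / 16)) ^ 4 * q ^ (-(ε₁ / 4)) := by
      congr 1
      rw [← Real.rpow_natCast, ← Real.rpow_mul hq0.le, ← Real.rpow_add hq0]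
      congr 1
      push_cast
      ring

theorem pf_DIz : T_DIz := by
  intro K _ _ _ E δ₀ C₁ c C₀ hE hδ₀ hC₁ hc hC₀
  set n : ℕ := nrComplexPlaces K with hn
  obtain ⟨CS, BS, hCS, hBS, hside⟩ := diz_side d_SA E hE
  obtain ⟨CG, BG, hCG, hBG, hG⟩ := d_G3 n
  obtain ⟨CU, -, hGU, -⟩ := a_GU K
  refine ⟨BS + BG, add_nonneg hBS hBG, fun η hη => ?_⟩
  obtain ⟨X₀, hX₀⟩ : ∃ X₀, X₀ = Real.exp (4 * C₀ * C₁) := ⟨_, rfl⟩
  have hX0 : 1 ≤ X₀ := by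
    rw [hX₀]
    apply Real.one_le_exp
    positivity
  obtain ⟨Z, hZ⟩ : ∃ Z, Z = (1 + X₀ * (1 + CG)) * (CS * Real.exp (4 * C₀) *
      |CU| ^ 3 * (1 / c)) := ⟨_, rfl⟩
  have hZ0 : 0 ≤ Z := by
    rw [hZ]
    positivity
  obtain ⟨q₁, hq₁⟩ := diz_small (ε₁ := δ₀ / 2) (by positivity) hη hZ0
  obtain ⟨q₂, hq₂⟩ : ∃ q₂ : ℝ, ∀ q : ℝ, q₂ ≤ q → 16 * C₀ ≤ Real.log q :=
    eventually_atTop.1 (Real.tendsto_log_atTop.eventually (eventually_ge_atTop (16 * C₀)))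
  refine ⟨max (max q₁ q₂) 2, fun M A hM hA1 hA2 α β u hα hβ hω => ?_⟩
  have hMa := hq₁ M ((le_max_left _ _).trans ((le_max_left _ _).trans hM))
  have hMb := hq₂ M ((le_max_right _ _).trans ((le_max_left _ _).trans hM))
  have hM2 : (2 : ℝ) ≤ M := (le_max_right _ _).trans hM
  have hM0 : (0 : ℝ) < M := by linarith
  have hM1 : (1 : ℝ) ≤ M := by linarith
  have hl0 : 0 < Real.log M := Real.log_pos (by linarith)
  have hC16 : C₀ / Real.log M ≤ 1 / 16 := by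
    rw [div_le_iff₀ hl0]
    linarith
  have hα16 := hα.trans hC16
  have hβ16 := hβ.trans hC16
  have hω0 : 0 < ‖α + β‖ := lt_of_lt_of_le (by positivity) hω
  have hωne : α + β ≠ 0 := norm_pos_iff.1 hω0
  have hακ : ‖α‖ * Real.log M ≤ C₀ := by
    rw [le_div_iff₀ hl0] at hα
    exact hα
  have hβκ : ‖β‖ * Real.log M ≤ C₀ := by
    rw [le_div_iff₀ hl0] at hβ
    exact hβ
  have hA0 : 0 < A := lt_of_lt_of_le (by positivity) hA1
  have hAone : 1 ≤ A := (Real.one_le_rpow hM1 (by linarith)).trans hA1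
  -- the two sides
  have k1 := hside A M C₀ α β u hA0 hM1 hα16 hβ16 hωne hακ hβκ
  have hne' : -β + -α ≠ 0 := by
    intro h
    apply hωne
    linear_combination -h
  have hnn : ‖-β + -α‖ = ‖α + β‖ := by
    rw [show -β + -α = -(α + β) by ring, norm_neg]
  have k2 := hside A M C₀ (-β) (-α) u hA0 hM1
    (by rw [norm_neg]; exact hβ16) (by rw [norm_neg]; exact hα16) hne'
    (by rw [norm_neg]; exact hβκ) (by rw [norm_neg]; exact hακ)
  rw [hnn] at k2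
  -- the factor
  have hXl : 2 * ‖α + β‖ * |Real.log A| ≤ 4 * C₀ * C₁ := by
    have e0 : 0 ≤ Real.log A := Real.log_nonneg hAone
    have e1 : |Real.log A| ≤ C₁ * Real.log M := by
      rw [abs_of_nonneg e0, ← Real.log_rpow hM0]
      exact Real.log_le_log hA0 hA2
    have e2 : ‖α + β‖ ≤ 2 * (C₀ / Real.log M) := (norm_add_le _ _).trans (by linarith)
    calc 2 * ‖α + β‖ * |Real.log A| ≤ 2 * (2 * (C₀ / Real.log M)) * (C₁ * Real.log M) := by gcongr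
      _ = 4 * C₀ * C₁ := by
        field_simp
        ring
  have k3 := Xn_le n hCG hBG hG hA0 u hα16 hβ16 hXl
  rw [← hX₀] at k3
  -- the error
  obtain ⟨V, hV⟩ : ∃ V, V = CS * (1 + |u|) ^ BS * Real.exp (4 * C₀) *
      GS np (PM K M) M ^ 3 * ((A ^ 2 / M ^ 2) ^ (-(1 / 8) : ℝ) / ‖α + β‖) := ⟨_, rfl⟩
  rw [← hV] at k1 k2
  have hGS0 : 0 ≤ GS np (PM K M) M := by
    unfold GS
    refine Finset.sum_nonneg fun S _ => inv_nonneg.2 ?_
    unfold fS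
    exact Finset.prod_nonneg fun P _ => by
      have := Pool.Agent.H94.CV.F1.two_le_np P
      linarith
  have hV1 : V ≤ CS * (1 + |u|) ^ BS * Real.exp (4 * C₀) * (|CU| * (1 + Real.log M)) ^ 3 *
      (1 / c * ((1 + Real.log M) * M ^ (-(δ₀ / 2 / 2)))) := by
    rw [hV]
    have g1 : GS np (PM K M) M ≤ |CU| * (1 + Real.log M) := by
      refine (hGU _ hM1).trans ?_
      exact mul_le_mul_of_nonneg_right (le_abs_self _) (by linarith)
    have s1 : (A ^ 2 / M ^ 2) ^ (-(1 / 8) : ℝ) ≤ M ^ (-(δ₀ / 2 / 2)) := by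
      have s2 : M ^ (2 * δ₀) ≤ A ^ 2 / M ^ 2 := by
        rw [le_div_iff₀ (by positivity)]
        have s3 : M ^ (2 * δ₀) * M ^ 2 = (M ^ (1 + δ₀)) ^ 2 := by
          rw [← Real.rpow_natCast M 2, ← Real.rpow_add hM0, ← Real.rpow_natCast _ 2,
            ← Real.rpow_mul hM0.le]
          congr 1
          push_cast
          ring
        rw [s3]
        exact pow_le_pow_left₀ (by positivity) hA1 2
      refine (Real.rpow_le_rpow_of_nonpos (by positivity) s2 (by norm_num)).trans (le_of_eq ?_)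
      rw [← Real.rpow_mul hM0.le]
      congr 1
      ring
    have g2 : (A ^ 2 / M ^ 2) ^ (-(1 / 8) : ℝ) / ‖α + β‖ ≤
        1 / c * ((1 + Real.log M) * M ^ (-(δ₀ / 2 / 2))) := by
      rw [div_le_iff₀ hω0]
      have t2 : 1 ≤ (1 + Real.log M) / c * ‖α + β‖ := by
        calc (1 : ℝ) = Real.log M / c * (c / Real.log M) := by
              field_simp
          _ ≤ (1 + Real.log M) / c * ‖α + β‖ := by
              gcongr
              linarith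
      calc (A ^ 2 / M ^ 2) ^ (-(1 / 8) : ℝ) ≤ M ^ (-(δ₀ / 2 / 2)) * 1 := by
            rw [mul_one]
            exact s1
        _ ≤ M ^ (-(δ₀ / 2 / 2)) * ((1 + Real.log M) / c * ‖α + β‖) := by gcongr
        _ = _ := by ring
    have hg2 : 0 ≤ (A ^ 2 / M ^ 2) ^ (-(1 / 8) : ℝ) / ‖α + β‖ := by positivity
    gcongr
  have hu0 : 0 < (1 + |u|) ^ BS := by positivity
  have hug : 1 ≤ (1 + |u|) ^ BG := Real.one_le_rpow (by linarith [abs_nonneg u]) hBG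
  have hV0 : 0 ≤ V := (norm_nonneg _).trans k1
  -- the end
  have e1 : (1 : ℂ) - (1 / 2 + β - u * I) = 1 / 2 + -β + u * I := by ring
  have e2 : (1 : ℂ) - (1 / 2 + α + u * I) = 1 / 2 + -α - u * I := by ring
  rw [e1, e2]
  rw [ident (K := K) n hA0 M u E _ _ _ rfl hα16 hβ16]
  refine (norm_add_le _ _).trans ?_
  rw [norm_mul]
  calc _ ≤ V + X₀ * ((1 + CG) * (1 + |u|) ^ BG) * V :=
        add_le_add k1 (mul_le_mul k3 k2 (norm_nonneg _) (by positivity))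
    _ ≤ (1 + |u|) ^ BG * ((1 + X₀ * (1 + CG)) * V) := by
        have : V ≤ (1 + |u|) ^ BG * V := le_mul_of_one_le_left hV0 hug
        have e : (1 + |u|) ^ BG * ((1 + X₀ * (1 + CG)) * V) = (1 + |u|) ^ BG * V +
          X₀ * ((1 + CG) * (1 + |u|) ^ BG) * V := by ring
        linarith
    _ ≤ (1 + |u|) ^ BG * ((1 + X₀ * (1 + CG)) * (CS * (1 + |u|) ^ BS * Real.exp (4 * C₀) *
          (|CU| * (1 + Real.log M)) ^ 3 * (1 / c *
            ((1 + Real.log M) * M ^ (-(δ₀ / 2 / 2)))))) := by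
        gcongr
    _ = Z * ((1 + Real.log M) ^ 4 * M ^ (-(δ₀ / 2 / 2))) * (1 + |u|) ^ (BS + BG) := by
        rw [hZ, Real.rpow_add (by positivity)]
        ring
    _ ≤ η * (1 + |u|) ^ (BS + BG) := by gcongr

end Pool.Agent.H11.SM
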